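import Pool.Agent.Helper72.BQ.Defs
import Pool.Agent.Helper72.BAM.PT1
import Pool.Agent.Helper72.BAM.PT2

/-!
# MP_3dd6d4_an, BQ : module Q2 (abstract inequality, integer exponents)
-/

set_option autoImplicit false

open MeasureTheory Complex FourierTransform Filter Topology
open scoped ENNReal NNReal ComplexConjugate

noncomputable section

namespace Helper72.BQ.P

open Helper72.BA Helper85.BP Helper72.BQ

theorem lcp_holder (K : ℕ) (hK : 2 ≤ K) (ω F : ℂ → ℝ≥0∞) (hω : Measurable ω) (hF : Measurable F)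
    (hsym : ∀ z, ω (-z) = ω z) :
    lcp (fun ζ => ω ζ * F ζ) (K - 1) 0 ≤ ∫⁻ ζ, ω ζ * F ζ ^ K * lcp ω (K - 2) ζ := by
  obtain ⟨l, rfl⟩ : ∃ l, K = l + 2 := ⟨K - 2, by omega⟩
  have hm : (0:ℝ) < ((l + 2 : ℕ) : ℝ) := by positivity
  have h := Helper72.BA.P.holder_ind hm hω hF (l + 1) (by push_cast; linarith) 0
  have e1 : (1:ℝ) - (((l + 1 : ℕ) : ℝ) + 1) / ((l + 2 : ℕ) : ℝ) = 0 := by
    push_cast
    rw [show (l:ℝ) + 1 + 1 = l + 2 by ring, div_self (by positivity), sub_self]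
  have e2 : (((l + 1 : ℕ) : ℝ) + 1) / ((l + 2 : ℕ) : ℝ) = 1 := by
    push_cast
    rw [show (l:ℝ) + 1 + 1 = l + 2 by ring, div_self (by positivity)]
  rw [e1, e2, ENNReal.rpow_zero, one_mul, ENNReal.rpow_one] at h
  refine h.trans (le_of_eq ?_)
  change lc (fun ξ => ω ξ * F ξ ^ ((l + 2 : ℕ) : ℝ)) (lcp ω l) 0 = _
  unfold lc
  refine lintegral_congr fun t => ?_
  dsimp only
  rw [zero_sub, Helper72.BA.P.lcp_neg hsym, ENNReal.rpow_natCast]
  rfl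

/-- the weight, with value `1` at the origin -/
def om2 (K : ℕ) (ξ : ℂ) : ℝ≥0∞ := if ξ = 0 then 1 else ‖ξ‖ₑ ^ (2 / (K : ℝ) - 2)

theorem measurable_om2 (K : ℕ) : Measurable (om2 K) := by
  unfold om2
  refine Measurable.ite (measurableSet_singleton 0) measurable_const ?_
  fun_prop

theorem om2_neg (K : ℕ) (z : ℂ) : om2 K (-z) = om2 K z := by
  unfold om2
  simp only [neg_eq_zero, enorm_neg]

theorem lcp_om2 {K : ℕ} (hK : 2 ≤ K) (j : ℕ) (hj : j + 1 < K) (z : ℂ) (hz : z ≠ 0) :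
    lcp (om2 K) j z =
      ENNReal.ofReal (Gc (2 / K) ^ (j + 1) / Gc (2 * ((j + 1 : ℕ) : ℝ) / K)) *
      ‖z‖ₑ ^ (2 * ((j + 1 : ℕ) : ℝ) / K - 2) := by
  have hk0 : (0:ℝ) < K := by
    have : 0 < K := by omega
    exact_mod_cast this
  have hk2 : (2:ℝ) ≤ K := by exact_mod_cast hK
  have h1k : (0:ℝ) < 2 / (K:ℝ) := by positivity
  have h1k2 : 2 / (K:ℝ) < 2 := by
    rw [div_lt_iff₀ hk0]
    linarith
  induction j generalizing z with
  | zero =>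
    change om2 K z = _
    rw [om2, if_neg hz]
    have h := Helper72.BA.P.Gc_pos h1k h1k2
    simp only [zero_add, pow_one, Nat.cast_one, mul_one]
    rw [div_self h.ne', ENNReal.ofReal_one, one_mul]
  | succ j ih =>
    have hj' : j + 1 < K := by omega
    change ∫⁻ t, lcp (om2 K) j t * om2 K (z - t) = _
    have hae : ∀ᵐ w : ℂ, w ≠ 0 ∧ z - w ≠ 0 := by
      have h1 : ∀ᵐ w : ℂ, w ≠ 0 := by
        simp [ae_iff]
      have h2 : ∀ᵐ w : ℂ, w ≠ z := by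
        simp [ae_iff]
      filter_upwards [h1, h2] with w hw1 hw2
      exact ⟨hw1, sub_ne_zero.2 (Ne.symm hw2)⟩
    have e1 : ∫⁻ t, lcp (om2 K) j t * om2 K (z - t) =
        ∫⁻ t : ℂ, ENNReal.ofReal (Gc (2 / K) ^ (j + 1) / Gc (2 * ((j + 1 : ℕ) : ℝ) / K)) *
          (‖t‖ₑ ^ (2 * ((j + 1 : ℕ) : ℝ) / K - 2) * ‖z - t‖ₑ ^ (2 / (K : ℝ) - 2)) := by
      refine lintegral_congr_ae ?_
      filter_upwards [hae] with t ht
      rw [ih hj' t ht.1, om2, if_neg ht.2, mul_assoc]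
    have ha : (0:ℝ) < 2 * ((j + 1 : ℕ) : ℝ) / K := by positivity
    have hab : 2 * ((j + 1 : ℕ) : ℝ) / K + 2 / K < 2 := by
      rw [← add_div, div_lt_iff₀ hk0]
      have : ((j + 1 + 1 : ℕ) : ℝ) < K := by exact_mod_cast hj
      push_cast at this ⊢
      linarith
    rw [e1, lintegral_const_mul' _ _ ENNReal.ofReal_ne_top, riesz_comp _ _ ha h1k hab z hz]
    have e2 : 2 * ((j + 1 : ℕ) : ℝ) / K + 2 / K = 2 * ((j + 1 + 1 : ℕ) : ℝ) / K := by
      push_cast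
      ring
    have hG1 := Helper72.BA.P.Gc_pos h1k h1k2
    have hG2 := Helper72.BA.P.Gc_pos ha (by linarith : 2 * ((j + 1 : ℕ) : ℝ) / K < 2)
    rw [e2, ← mul_assoc, ← ENNReal.ofReal_mul (by positivity)]
    congr 2
    field_simp
    rw [← pow_succ]

theorem Gc2_const {K : ℕ} (hK : 2 ≤ K) :
    Gc (2 / K) ^ (K - 2 + 1) / Gc (2 * ((K - 2 + 1 : ℕ) : ℝ) / K) =
      Gc (2 / (K:ℝ)) ^ K / Real.pi ^ 2 := by
  have hk0 : (0:ℝ) < K := by
    have : 0 < K := by omega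
    exact_mod_cast this
  have hk2 : (2:ℝ) ≤ K := by exact_mod_cast hK
  have e1 : 2 * ((K - 2 + 1 : ℕ) : ℝ) / K = 2 - 2 / K := by
    rw [show K - 2 + 1 = K - 1 by omega, Nat.cast_sub (by omega)]
    push_cast
    field_simp
  have hlt : 1 / (K:ℝ) < 1 := by
    rw [div_lt_one (by positivity)]
    linarith
  have hprod : Gc (2 / K) * Gc (2 - 2 / K) = Real.pi ^ 2 := by
    unfold Gc
    have h1 : 0 < Real.Gamma (1 / K) := Real.Gamma_pos_of_pos (by positivity)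
    have h2 : 0 < Real.Gamma (1 - 1 / K) := Real.Gamma_pos_of_pos (by linarith)
    rw [show 2 / (K:ℝ) / 2 = 1 / K by ring, show (2 - 2 / (K:ℝ)) / 2 = 1 - 1 / K by ring,
      show 1 - (1 - 1 / (K:ℝ)) = 1 / K by ring]
    generalize Real.Gamma (1 / K) = x at *
    generalize Real.Gamma (1 - 1 / K) = y at *
    field_simp
  have hG2 : 0 < Gc (2 - 2 / (K:ℝ)) := by
    refine Helper72.BA.P.Gc_pos ?_ ?_
    · have : 2 / (K:ℝ) < 2 := by
        rw [div_lt_iff₀ hk0]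
        linarith
      linarith
    · have : 0 < 2 / (K:ℝ) := by positivity
      linarith
  rw [e1, show K - 2 + 1 = K - 1 by omega]
  have e3 : Gc (2 / (K:ℝ)) ^ K = Gc (2 / (K:ℝ)) ^ (K - 1) * Gc (2 / (K:ℝ)) := by
    rw [← pow_succ]
    congr 1
    omega
  rw [e3, ← hprod]
  have hG1 : 0 < Gc (2 / (K:ℝ)) := by
    refine Helper72.BA.P.Gc_pos (by positivity) ?_
    rw [div_lt_iff₀ hk0]
    linarith
  field_simp

/-- integer exponents -/
theorem pitt_int (K : ℕ) (hK : 2 ≤ K) (R : ℂ → ℝ≥0∞) (hR : Measurable R) :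
    lcp R (K - 1) 0 ≤ ENNReal.ofReal (Gc (2 / (K:ℝ)) ^ K / Real.pi ^ 2) *
      ∫⁻ ζ, ‖ζ‖ₑ ^ (2 * K - 4) * R ζ ^ K := by
  have hk0 : (0:ℝ) < K := by
    have : 0 < K := by omega
    exact_mod_cast this
  set F : ℂ → ℝ≥0∞ := fun ξ => (if ξ = 0 then 1 else ‖ξ‖ₑ ^ (2 - 2 / (K : ℝ))) * R ξ with hF
  have hFm : Measurable F := by
    rw [hF]
    refine Measurable.mul (Measurable.ite (measurableSet_singleton 0) measurable_const ?_) hR
    fun_prop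
  have hz0 : ∀ {ξ : ℂ}, ξ ≠ 0 → ‖ξ‖ₑ ≠ 0 := fun h => by rwa [Ne, enorm_eq_zero]
  have hvF : (fun ξ => om2 K ξ * F ξ) = R := by
    funext ξ
    rw [hF]
    dsimp only
    unfold om2
    by_cases h : ξ = 0
    · rw [if_pos h, if_pos h, one_mul, one_mul]
    · rw [if_neg h, if_neg h, ← mul_assoc, ← ENNReal.rpow_add _ _ (hz0 h) enorm_ne_top]
      rw [show 2 / (K:ℝ) - 2 + (2 - 2 / K) = 0 by ring, ENNReal.rpow_zero, one_mul]
  have h := lcp_holder K hK (om2 K) F (measurable_om2 K) hFm (om2_neg K)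
  rw [hvF] at h
  refine h.trans ?_
  rw [← lintegral_const_mul' _ _ ENNReal.ofReal_ne_top]
  apply le_of_eq
  refine lintegral_congr_ae ?_
  have hae : ∀ᵐ w : ℂ, w ≠ 0 := by
    simp [ae_iff]
  filter_upwards [hae] with ξ hξ
  rw [lcp_om2 hK (K - 2) (by omega) ξ hξ, Gc2_const hK, om2, if_neg hξ, hF]
  dsimp only
  rw [if_neg hξ, mul_pow]
  have e1 : (‖ξ‖ₑ ^ (2 - 2 / (K : ℝ))) ^ K = ‖ξ‖ₑ ^ ((2 - 2 / (K : ℝ)) * K) := by
    rw [← ENNReal.rpow_natCast, ← ENNReal.rpow_mul]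
  have e2 : ‖ξ‖ₑ ^ (2 / (K : ℝ) - 2) * ‖ξ‖ₑ ^ ((2 - 2 / (K : ℝ)) * K) *
      ‖ξ‖ₑ ^ (2 * ((K - 2 + 1 : ℕ) : ℝ) / K - 2) = ‖ξ‖ₑ ^ (2 * K - 4) := by
    rw [← ENNReal.rpow_add _ _ (hz0 hξ) enorm_ne_top, ← ENNReal.rpow_add _ _ (hz0 hξ) enorm_ne_top,
      ← ENNReal.rpow_natCast]
    congr 1
    rw [show K - 2 + 1 = K - 1 by omega, Nat.cast_sub (by omega), Nat.cast_sub (by omega)]
    push_cast
    field_simp
    ring
  rw [e1, ← e2]
  ring

end Helper72.BQ.P
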