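import Pool.Agent.Helper32.DesDefs

namespace Pool.Agent.Helper32.Des

section
variable {V : Type*} [DecidableEq V] [Fintype V]

/-- Indicator function. -/
def idc (B : Finset V) (x : V) : ℤ := if x ∈ B then 1 else 0

omit [Fintype V] in
lemma idc_sq (B : Finset V) (x : V) : idc B x * idc B x = idc B x := by
  unfold idc; split_ifs <;> norm_num

lemma sum_idc (B : Finset V) : ∑ x, idc B x = B.card := by
  unfold idc
  simp

omit [Fintype V] in
lemma card_inter (X B : Finset V) : ((X ∩ B).card : ℤ) = ∑ x ∈ X, idc B x := by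
  unfold idc
  simp

/-- Pair counts of a collection of blocks. -/
def S2 (𝓑 : Multiset (Finset V)) (x y : V) : ℤ := (𝓑.map (fun B => idc B x * idc B y)).sum

omit [Fintype V] in
lemma countP_eq_sum (𝓑 : Multiset (Finset V)) (P : Finset V → Prop) [DecidablePred P] :
    ((𝓑.countP P : ℕ) : ℤ) = (𝓑.map (fun B => if P B then (1 : ℤ) else 0)).sum := by
  induction 𝓑 using Multiset.induction_on with
  | empty => simp
  | cons B 𝓑 ih =>
    rw [Multiset.countP_cons, Multiset.map_cons, Multiset.sum_cons, ← ih]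
    split_ifs <;> push_cast <;> ring

omit [Fintype V] in
lemma S2_ne {k l : ℕ} {𝓑 : Multiset (Finset V)} (h : IsDesign 2 k l 𝓑) {x y : V} (hxy : x ≠ y) :
    S2 𝓑 x y = l := by
  have h1 := h.2 {x, y} (Finset.card_pair hxy)
  have h2 := countP_eq_sum 𝓑 (fun B => ({x, y} : Finset V) ⊆ B)
  rw [h1] at h2
  rw [h2]
  unfold S2
  congr 1
  refine Multiset.map_congr rfl (fun B _ => ?_)
  unfold idc
  by_cases hx : x ∈ B <;> by_cases hy : y ∈ B <;>
    simp [hx, hy, Finset.insert_subset_iff]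

omit [Fintype V] in
lemma sum_map_finset_sum {ι : Type*} (𝓑 : Multiset (Finset V)) (s : Finset ι)
    (g : Finset V → ι → ℤ) :
    (𝓑.map (fun B => ∑ i ∈ s, g B i)).sum = ∑ i ∈ s, (𝓑.map (fun B => g B i)).sum := by
  induction 𝓑 using Multiset.induction_on with
  | empty => simp
  | cons B 𝓑 ih =>
    simp only [Multiset.map_cons, Multiset.sum_cons]
    rw [ih, Finset.sum_add_distrib]

/-- Parameters of a Hadamard design of order `n`. -/
structure Par (V : Type*) [Fintype V] (n : ℕ) : Prop where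
  card : Fintype.card V + 1 = 4 * n
  two_le : 2 ≤ n

variable {n : ℕ} (hP : Par V n) {𝓑 : Multiset (Finset V)}
  (h𝓑 : IsDesign 2 (2 * n - 1) (n - 1) 𝓑)

include hP in
lemma Par.card' : (Fintype.card V : ℤ) = 4 * n - 1 := by
  have := hP.card
  omega

include hP h𝓑 in
lemma S2_self (x : V) : S2 𝓑 x x = 2 * n - 1 := by
  have hn := hP.two_le
  have hl : ((n - 1 : ℕ) : ℤ) = n - 1 := by omega
  have hk : ((2 * n - 1 : ℕ) : ℤ) = 2 * n - 1 := by omega
  have h1 : ∑ y, S2 𝓑 x y = (2 * n - 1) * S2 𝓑 x x := by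
    unfold S2
    rw [← sum_map_finset_sum, ← Multiset.sum_map_mul_left]
    congr 1
    refine Multiset.map_congr rfl (fun B hB => ?_)
    rw [← Finset.mul_sum, sum_idc, h𝓑.1 B hB, hk, idc_sq]
    ring
  have h2 : ∑ y, S2 𝓑 x y = S2 𝓑 x x + (4 * n - 2) * (n - 1) := by
    rw [← Finset.add_sum_erase _ _ (Finset.mem_univ x)]
    congr 1
    rw [Finset.sum_congr rfl (fun y hy => S2_ne h𝓑 (Finset.ne_of_mem_erase hy).symm)]
    rw [Finset.sum_const, Finset.card_erase_of_mem (Finset.mem_univ x), Finset.card_univ, hl,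
      nsmul_eq_mul]
    have := hP.card
    have h3 : ((Fintype.card V - 1 : ℕ) : ℤ) = 4 * n - 2 := by omega
    rw [h3]
  rw [h1] at h2
  have h3 : (2 * (n : ℤ) - 2) * S2 𝓑 x x = (2 * n - 2) * (2 * n - 1) := by linarith
  have h4 : (2 * (n : ℤ) - 2) ≠ 0 := by omega
  exact mul_left_cancel₀ h4 h3

include hP h𝓑 in
lemma S1_eq (x : V) : (𝓑.map (fun B => idc B x)).sum = 2 * n - 1 := by
  rw [← S2_self hP h𝓑 x]
  unfold S2
  simp_rw [idc_sq]

include hP h𝓑 in
lemma card_blocks : 𝓑.card = Fintype.card V := by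
  have hn := hP.two_le
  have hk : ((2 * n - 1 : ℕ) : ℤ) = 2 * n - 1 := by omega
  have h1 : ∑ x, (𝓑.map (fun B => idc B x)).sum = (2 * n - 1) * (𝓑.card : ℤ) := by
    rw [← sum_map_finset_sum]
    rw [Multiset.map_congr rfl (fun B hB => by rw [sum_idc, h𝓑.1 B hB, hk] :
      ∀ B ∈ 𝓑, ∑ x, idc B x = 2 * (n : ℤ) - 1)]
    rw [Multiset.map_const', Multiset.sum_replicate, nsmul_eq_mul]
    ring
  rw [Finset.sum_congr rfl (fun x _ => S1_eq hP h𝓑 x)] at h1
  rw [Finset.sum_const, Finset.card_univ, nsmul_eq_mul, mul_comm] at h1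
  have h4 : (2 * (n : ℤ) - 1) ≠ 0 := by omega
  have := mul_left_cancel₀ h4 h1
  exact_mod_cast this.symm

/-- The basic expansion of the indicator of a `k`-subset. -/
lemma expansion (hP : Par V n) (h𝓑 : IsDesign 2 (2 * n - 1) (n - 1) 𝓑) (X : Finset V)
    (hX : X.card = 2 * n - 1) (x : V) :
    (𝓑.map (fun B => (((X ∩ B).card : ℤ) - (n - 1)) * idc B x)).sum = n * idc X x := by
  have hn := hP.two_le
  have hl : ((n - 1 : ℕ) : ℤ) = n - 1 := by omega
  have h1 : (𝓑.map (fun B => (((X ∩ B).card : ℤ) - (n - 1)) * idc B x)).sum =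
      ∑ y ∈ X, S2 𝓑 y x - (n - 1) * (𝓑.map (fun B => idc B x)).sum := by
    unfold S2
    rw [← sum_map_finset_sum, ← Multiset.sum_map_mul_left, ← Multiset.sum_map_sub]
    congr 1
    refine Multiset.map_congr rfl (fun B _ => ?_)
    rw [card_inter, ← Finset.sum_mul]
    ring
  rw [h1, S1_eq hP h𝓑]
  by_cases hx : x ∈ X
  · rw [← Finset.add_sum_erase _ _ hx, S2_self hP h𝓑,
      Finset.sum_congr rfl (fun y hy => S2_ne h𝓑 (Finset.ne_of_mem_erase hy)),
      Finset.sum_const, Finset.card_erase_of_mem hx, hX, hl, nsmul_eq_mul]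
    have h3 : ((2 * n - 1 - 1 : ℕ) : ℤ) = 2 * n - 2 := by omega
    rw [h3]
    simp only [idc, hx, if_true]
    ring
  · rw [Finset.sum_congr rfl (fun y hy => S2_ne h𝓑 (fun h => hx (h ▸ hy) : y ≠ x)),
      Finset.sum_const, hX, hl, nsmul_eq_mul]
    have h3 : ((2 * n - 1 : ℕ) : ℤ) = 2 * n - 1 := by omega
    rw [h3]
    simp only [idc, hx, if_false]
    ring

/-- The sum of squares of the coefficients. -/
lemma variance (hP : Par V n) (h𝓑 : IsDesign 2 (2 * n - 1) (n - 1) 𝓑) (X : Finset V)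
    (hX : X.card = 2 * n - 1) :
    (𝓑.map (fun B => (((X ∩ B).card : ℤ) - (n - 1)) ^ 2)).sum = (n : ℤ) ^ 2 := by
  have hn := hP.two_le
  have hl : ((n - 1 : ℕ) : ℤ) = n - 1 := by omega
  have hk : ((2 * n - 1 : ℕ) : ℤ) = 2 * n - 1 := by omega
  have h1 : (𝓑.map (fun B => (((X ∩ B).card : ℤ) - (n - 1)) ^ 2)).sum =
      ∑ x ∈ X, (𝓑.map (fun B => (((X ∩ B).card : ℤ) - (n - 1)) * idc B x)).sum -
      (n - 1) * ((𝓑.map (fun B => ((X ∩ B).card : ℤ))).sum - (n - 1) * 𝓑.card) := by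
    have h2 : (n - 1 : ℤ) * 𝓑.card = (𝓑.map (fun _ => (n - 1 : ℤ))).sum := by
      rw [Multiset.map_const', Multiset.sum_replicate, nsmul_eq_mul]
      ring
    rw [h2, ← Multiset.sum_map_sub, ← sum_map_finset_sum, ← Multiset.sum_map_mul_left,
      ← Multiset.sum_map_sub]
    congr 1
    refine Multiset.map_congr rfl (fun B _ => ?_)
    rw [← Finset.mul_sum, ← card_inter]
    ring
  rw [h1, Finset.sum_congr rfl (fun x _ => expansion hP h𝓑 X hX x), card_blocks hP h𝓑,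
    hP.card']
  have h3 : (𝓑.map (fun B => ((X ∩ B).card : ℤ))).sum = (2 * n - 1) * (2 * n - 1) := by
    simp_rw [card_inter]
    rw [sum_map_finset_sum, Finset.sum_congr rfl (fun x _ => S1_eq hP h𝓑 x), Finset.sum_const,
      hX, nsmul_eq_mul, hk]
  have h4 : ∑ x ∈ X, (n : ℤ) * idc X x = n * (2 * n - 1) := by
    rw [← Finset.mul_sum, ← card_inter, Finset.inter_self, hX, hk]
  rw [h3, h4]
  ring

/-- Two blocks of the collection meet in `n - 1` points. -/
lemma inter_blocks (hP : Par V n) (h𝓑 : IsDesign 2 (2 * n - 1) (n - 1) 𝓑) (X : Finset V)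
    (hX : X ∈ 𝓑) (Y : Finset V) (hY : Y ∈ 𝓑.erase X) : ((X ∩ Y).card : ℤ) = n - 1 := by
  have hn := hP.two_le
  have hk : ((2 * n - 1 : ℕ) : ℤ) = 2 * n - 1 := by omega
  have h1 := variance hP h𝓑 X (h𝓑.1 X hX)
  rw [← Multiset.cons_erase hX, Multiset.map_cons, Multiset.sum_cons, Finset.inter_self,
    h𝓑.1 X hX, hk] at h1
  rw [← Multiset.cons_erase hY, Multiset.map_cons, Multiset.sum_cons] at h1
  have h2 : 0 ≤ (((𝓑.erase X).erase Y).map
      (fun B => (((X ∩ B).card : ℤ) - (n - 1)) ^ 2)).sum := by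
    refine Multiset.sum_nonneg (fun z hz => ?_)
    obtain ⟨B, -, rfl⟩ := Multiset.mem_map.mp hz
    exact sq_nonneg _
  have h3 : (((X ∩ Y).card : ℤ) - (n - 1)) ^ 2 ≤ 0 := by nlinarith
  have h4 : ((X ∩ Y).card : ℤ) - (n - 1) = 0 := by
    have := le_antisymm h3 (sq_nonneg _)
    exact pow_eq_zero_iff (two_ne_zero) |>.mp this
  linarith

lemma nodup_blocks (hP : Par V n) (h𝓑 : IsDesign 2 (2 * n - 1) (n - 1) 𝓑) : 𝓑.Nodup := by
  have hn := hP.two_le
  rw [Multiset.nodup_iff_count_le_one]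
  intro X
  by_contra hcon
  have h2 : 2 ≤ 𝓑.count X := by omega
  have hX : X ∈ 𝓑 := Multiset.count_pos.mp (by omega)
  have hX2 : X ∈ 𝓑.erase X := by
    rw [← Multiset.count_pos, Multiset.count_erase_self]
    omega
  have h3 := inter_blocks hP h𝓑 X hX X hX2
  rw [Finset.inter_self, h𝓑.1 X hX] at h3
  omega

end

end Pool.Agent.Helper32.Des
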