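import Pool.Agent.Helper32.DesA

namespace Pool.Agent.Helper32.Des

section
variable {F : Type*} [Field F] [Fintype F] [DecidableEq F]

lemma mem_sq (y : F) : y ∈ nonzeroSquares F ↔ quadraticChar F y = 1 := by
  unfold nonzeroSquares
  simp only [Finset.mem_image, Finset.mem_erase, Finset.mem_univ, and_true]
  constructor
  · rintro ⟨z, hz, rfl⟩
    rw [← sq]
    exact quadraticChar_sq_one' hz
  · intro h
    have hy : y ≠ 0 := by
      rintro rfl
      rw [quadraticChar_zero] at h
      exact absurd h (by norm_num)
    obtain ⟨z, hz⟩ := (quadraticChar_one_iff_isSquare hy).mp h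
    refine ⟨z, ?_, hz.symm⟩
    rintro rfl
    exact hy (by rw [hz, mul_zero])

lemma mem_block (a x : F) : x ∈ qrBlock a ↔ quadraticChar F (x - a) = 1 := by
  unfold qrBlock
  rw [Finset.mem_image, ← mem_sq]
  constructor
  · rintro ⟨z, hz, rfl⟩
    simpa using hz
  · intro h
    exact ⟨x - a, h, by ring⟩

lemma two_idc (a x : F) : 2 * idc (qrBlock a) x =
    quadraticChar F (x - a) ^ 2 + quadraticChar F (x - a) := by
  unfold idc
  by_cases h : x - a = 0
  · have : x ∉ qrBlock a := by
      rw [mem_block, h, quadraticChar_zero]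
      norm_num
    rw [if_neg this, h, quadraticChar_zero]
    norm_num
  · rcases quadraticChar_dichotomy h with h1 | h1
    · rw [if_pos ((mem_block a x).mpr h1), h1]
      norm_num
    · have : x ∉ qrBlock a := by
        rw [mem_block, h1]
        norm_num
      rw [if_neg this, h1]
      norm_num

variable (h3 : Fintype.card F % 4 = 3)

include h3 in
lemma ringChar_ne_two : ringChar F ≠ 2 := by
  intro h
  have := FiniteField.even_card_of_char_two h
  omega

include h3 in
lemma qc_neg_one : quadraticChar F (-1) = -1 := by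
  rw [quadraticChar_neg_one (ringChar_ne_two h3)]
  exact ZMod.χ₄_nat_three_mod_four h3

include h3 in
lemma qc_neg (x : F) : quadraticChar F (-x) = - quadraticChar F x := by
  rw [show -x = (-1) * x by ring, map_mul, qc_neg_one h3]
  ring

lemma sum_sq : ∑ x : F, (quadraticChar F x) ^ 2 = (Fintype.card F : ℤ) - 1 := by
  rw [← Finset.add_sum_erase _ _ (Finset.mem_univ (0 : F)), quadraticChar_zero]
  rw [Finset.sum_congr rfl (fun x hx => quadraticChar_sq_one (Finset.ne_of_mem_erase hx))]
  rw [Finset.sum_const, Finset.card_erase_of_mem (Finset.mem_univ _), Finset.card_univ]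
  have : 0 < Fintype.card F := Fintype.card_pos
  rw [nsmul_eq_mul]
  push_cast [Nat.cast_sub (Nat.one_le_of_lt this)]
  ring

lemma sum_shift (g : F → ℤ) (x : F) : ∑ a : F, g (x - a) = ∑ a : F, g a :=
  Fintype.sum_equiv (Equiv.subLeft x) _ _ (fun _ => rfl)

include h3 in
lemma sum_pair {x y : F} (hxy : x ≠ y) :
    ∑ a : F, quadraticChar F (x - a) * quadraticChar F (y - a) = -1 := by
  have hd : x - y ≠ 0 := sub_ne_zero.mpr hxy
  have h1 : ∑ a : F, quadraticChar F (x - a) * quadraticChar F (y - a) =
      ∑ u : F, quadraticChar F (-1) * (quadraticChar F u * quadraticChar F (1 - u)) := by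
    let e : F ≃ F := (Equiv.mulLeft₀ (x - y) hd).trans (Equiv.subLeft x)
    refine (Fintype.sum_equiv e _ _ (fun u => ?_)).symm
    have e1 : x - e u = (x - y) * u := by
      simp [e]
    have e2 : y - e u = (x - y) * ((-1) * (1 - u)) := by
      have e3 : e u = x - (x - y) * u := rfl
      rw [e3]
      ring
    rw [e1, e2, map_mul, map_mul, map_mul]
    have := quadraticChar_sq_one hd
    linear_combination (-(quadraticChar F (-1) * (quadraticChar F u * quadraticChar F (1 - u)))) *
      this
  rw [h1, ← Finset.mul_sum]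
  have h2 := jacobiSum_nontrivial_inv (quadraticChar_ne_one (ringChar_ne_two h3))
  rw [(quadraticChar_isQuadratic (F := F)).inv] at h2
  unfold jacobiSum at h2
  rw [h2, qc_neg_one h3]
  norm_num

include h3 in
lemma card_block (a : F) : ((qrBlock a).card : ℤ) * 2 = Fintype.card F - 1 := by
  have h1 : ∑ x, 2 * idc (qrBlock a) x = 2 * ((qrBlock a).card : ℤ) := by
    rw [← Finset.mul_sum, sum_idc]
  rw [Finset.sum_congr rfl (fun x _ => two_idc a x), Finset.sum_add_distrib] at h1
  have h2 : ∑ x : F, quadraticChar F (x - a) ^ 2 = (Fintype.card F : ℤ) - 1 := by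
    rw [← sum_sq]
    exact Fintype.sum_equiv (Equiv.subRight a) _ _ (fun _ => rfl)
  have h4 : ∑ x : F, quadraticChar F (x - a) = 0 := by
    rw [← quadraticChar_sum_zero (ringChar_ne_two h3)]
    exact Fintype.sum_equiv (Equiv.subRight a) _ _ (fun _ => rfl)
  rw [h2, h4] at h1
  linarith

include h3 in
lemma pair_count {x y : F} (hxy : x ≠ y) :
    4 * ∑ a : F, idc (qrBlock a) x * idc (qrBlock a) y = Fintype.card F - 3 := by
  have h1 : 4 * ∑ a : F, idc (qrBlock a) x * idc (qrBlock a) y =
      ∑ a : F, (quadraticChar F (x - a) ^ 2 + quadraticChar F (x - a)) *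
        (quadraticChar F (y - a) ^ 2 + quadraticChar F (y - a)) := by
    rw [Finset.mul_sum]
    refine Finset.sum_congr rfl (fun a _ => ?_)
    rw [← two_idc, ← two_idc]
    ring
  have hone : ∀ z : F, quadraticChar F z ^ 2 = 1 - if z = 0 then 1 else 0 := by
    intro z
    by_cases hz : z = 0
    · rw [hz, quadraticChar_zero]; norm_num
    · rw [quadraticChar_sq_one hz, if_neg hz]; norm_num
  have h2 : ∀ a : F, (quadraticChar F (x - a) ^ 2 + quadraticChar F (x - a)) *
        (quadraticChar F (y - a) ^ 2 + quadraticChar F (y - a)) =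
      (quadraticChar F (x - a)) ^ 2 - (if a = y then quadraticChar F (x - a) ^ 2 else 0) +
      (quadraticChar F (x - a) - (if a = y then quadraticChar F (x - a) else 0)) +
      (quadraticChar F (y - a) - (if a = x then quadraticChar F (y - a) else 0)) +
      quadraticChar F (x - a) * quadraticChar F (y - a) := by
    intro a
    have e1 : quadraticChar F (y - a) ^ 2 = 1 - if a = y then 1 else 0 := by
      rw [hone]
      congr 1
      refine if_congr ?_ rfl rfl
      rw [sub_eq_zero, eq_comm]
    have e2 : quadraticChar F (x - a) ^ 2 * quadraticChar F (y - a) =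
        quadraticChar F (y - a) - (if a = x then quadraticChar F (y - a) else 0) := by
      rw [hone]
      by_cases h : a = x
      · rw [if_pos (by rw [h, sub_self]), if_pos h]; ring
      · rw [if_neg (by rw [sub_eq_zero]; exact fun hh => h hh.symm), if_neg h]; ring
    have e3 : (quadraticChar F (x - a)) ^ 2 * quadraticChar F (y - a) ^ 2 =
        (quadraticChar F (x - a)) ^ 2 -
          (if a = y then quadraticChar F (x - a) ^ 2 else 0) := by
      rw [e1]
      split_ifs <;> ring
    have e4 : (quadraticChar F (x - a)) * quadraticChar F (y - a) ^ 2 =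
        (quadraticChar F (x - a)) -
          (if a = y then quadraticChar F (x - a) else 0) := by
      rw [e1]
      split_ifs <;> ring
    linear_combination e3 + e4 + e2
  rw [h1, Finset.sum_congr rfl (fun a _ => h2 a)]
  simp only [Finset.sum_add_distrib, Finset.sum_sub_distrib, Finset.sum_ite_eq',
    Finset.mem_univ, if_true]
  rw [sum_shift (fun z => quadraticChar F z ^ 2) x, sum_sq, sum_shift (fun z => quadraticChar F z),
    sum_shift (fun z => quadraticChar F z), quadraticChar_sum_zero (ringChar_ne_two h3),
    sum_pair h3 hxy, quadraticChar_sq_one (sub_ne_zero.mpr hxy)]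
  have := qc_neg h3 (x - y)
  rw [neg_sub] at this
  rw [this]
  ring

lemma sum_qrDesign {M : Type*} [AddCommMonoid M] (g : Finset F → M) :
    ((qrDesign F).map g).sum = ∑ a : F, g (qrBlock a) := by
  unfold qrDesign
  rw [Multiset.map_map]
  rfl

include h3 in
lemma qrDesign_isDesign (h7 : 7 ≤ Fintype.card F) :
    IsDesign 2 ((Fintype.card F - 1) / 2) ((Fintype.card F - 3) / 4) (qrDesign F) := by
  constructor
  · intro B hB
    obtain ⟨a, -, rfl⟩ := Multiset.mem_map.mp hB
    have := card_block h3 a
    omega
  · intro T hT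
    obtain ⟨x, y, hxy, rfl⟩ := Finset.card_eq_two.mp hT
    have h1 := countP_eq_sum (qrDesign F) (fun B => ({x, y} : Finset F) ⊆ B)
    rw [sum_qrDesign] at h1
    have h2 : ∑ a : F, (if ({x, y} : Finset F) ⊆ qrBlock a then (1 : ℤ) else 0) =
        ∑ a : F, idc (qrBlock a) x * idc (qrBlock a) y := by
      refine Finset.sum_congr rfl (fun a _ => ?_)
      unfold idc
      by_cases hx : x ∈ qrBlock a <;> by_cases hy : y ∈ qrBlock a <;>
        simp [hx, hy, Finset.insert_subset_iff]
    rw [h2] at h1
    have h4 := pair_count h3 hxy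
    rw [← h1] at h4
    have : (4 * (qrDesign F).countP (fun B => ({x, y} : Finset F) ⊆ B) : ℤ) =
      Fintype.card F - 3 := h4
    omega

lemma qrBlock_injective (h3 : Fintype.card F % 4 = 3) (h7 : 7 ≤ Fintype.card F) :
    Function.Injective (qrBlock : F → Finset F) := by
  intro x y hxy
  by_contra hne
  -- the number of blocks containing both points of a pair determines everything
  have h1 := nodup_blocks (n := (Fintype.card F + 1) / 4) (𝓑 := qrDesign F)
    ⟨by omega, by omega⟩ (by
      have h := qrDesign_isDesign h3 h7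
      have e1 : 2 * ((Fintype.card F + 1) / 4) - 1 = (Fintype.card F - 1) / 2 := by omega
      have e2 : (Fintype.card F + 1) / 4 - 1 = (Fintype.card F - 3) / 4 := by omega
      rw [e1, e2]
      exact h)
  unfold qrDesign at h1
  exact hne (Multiset.inj_on_of_nodup_map h1 x (Finset.mem_univ x) y (Finset.mem_univ y) hxy)

end

end Pool.Agent.Helper32.Des
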