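import Mathlib

namespace Pool.Agent.Helper32.Des

universe u

/-- Rank of a tuple of exponents; the coordinate `0` is the least significant one. -/
def rk (p : ℕ) : ∀ m : ℕ, (Fin m → Fin p) → ℕ
  | 0, _ => 0
  | m + 1, c => rk p m (Fin.tail c) * p + (c 0).val

lemma rk_cons (p m : ℕ) (j : Fin p) (c : Fin m → Fin p) :
    rk p (m + 1) (Fin.cons j c) = rk p m c * p + j.val := by
  simp [rk]

lemma rk_injective (p : ℕ) : ∀ m : ℕ, Function.Injective (rk p m) := by
  intro m
  induction m with
  | zero => intro a b _; exact Subsingleton.elim a b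
  | succ m ih =>
    intro a b h
    simp only [rk] at h
    have ha := (a 0).isLt
    have hb := (b 0).isLt
    have hp : 0 < p := lt_of_le_of_lt (Nat.zero_le _) ha
    have h1 : rk p m (Fin.tail a) = rk p m (Fin.tail b) := by
      have e1 : (rk p m (Fin.tail a) * p + (a 0).val) / p = rk p m (Fin.tail a) := by
        rw [Nat.mul_comm, Nat.mul_add_div hp, Nat.div_eq_of_lt ha, add_zero]
      have e2 : (rk p m (Fin.tail b) * p + (b 0).val) / p = rk p m (Fin.tail b) := by
        rw [Nat.mul_comm, Nat.mul_add_div hp, Nat.div_eq_of_lt hb, add_zero]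
      rw [← e1, ← e2, h]
    have h2 : (a 0) = (b 0) := by
      rw [h1] at h
      exact Fin.ext (by omega)
    have h3 := ih h1
    rw [← Fin.cons_self_tail a, ← Fin.cons_self_tail b, h2, h3]

lemma sum_cons {p m : ℕ} {K : Type*} [AddCommMonoid K] (F : (Fin (m + 1) → Fin p) → K) :
    ∑ c, F c = ∑ c' : Fin m → Fin p, ∑ j : Fin p, F (Fin.cons j c') := by
  rw [← Fintype.sum_equiv (Fin.consEquiv fun _ => Fin p) (fun x => F (Fin.cons x.1 x.2)) F
    (fun x => rfl), Fintype.sum_prod_type, Finset.sum_comm]

lemma card_lt (p N : ℕ) (h : N ≤ p) :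
    (Finset.univ.filter (fun j : Fin p => j.val < N)).card = N := by
  have h1 : (Finset.univ.filter (fun j : Fin p => j.val < N)) =
      (Finset.univ : Finset (Fin N)).map (Fin.castLEEmb h) := by
    ext j
    simp only [Finset.mem_filter, Finset.mem_univ, true_and, Finset.mem_map]
    constructor
    · intro hj
      exact ⟨⟨j.val, hj⟩, Fin.ext rfl⟩
    · rintro ⟨a, rfl⟩
      exact a.isLt
  rw [h1, Finset.card_map, Finset.card_univ, Fintype.card_fin]

/-- For every finite set `P` of points there is a set `D` of exponents, of the same size, which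
contains no leading exponent of a polynomial vanishing on `P`, for any field and any injective
choice of coordinates. -/
theorem lexgame (p : ℕ) [Fact p.Prime] (m : ℕ) : ∀ P : Finset (Fin m → ZMod p),
    ∃ D : Finset (Fin m → Fin p), D.card = P.card ∧
      ∀ (K : Type u) [Field K] (θ : Fin m → ZMod p → K), (∀ i, Function.Injective (θ i)) →
        ∀ μ : (Fin m → Fin p) → K, μ ≠ 0 →
          (∀ x ∈ P, ∑ c, μ c * ∏ i, θ i (x i) ^ (c i).val = 0) →
            ∃ c, c ∉ D ∧ μ c ≠ 0 ∧ ∀ c', μ c' ≠ 0 → rk p m c' ≤ rk p m c := by
  classical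
  induction m with
  | zero =>
    intro P
    by_cases hP : P = ∅
    · refine ⟨∅, by rw [hP]; rfl, ?_⟩
      intro K _ θ hθ μ hμ _
      have : ∃ c, μ c ≠ 0 := by
        by_contra h
        push Not at h
        exact hμ (funext h)
      obtain ⟨c, hc⟩ := this
      exact ⟨c, by simp, hc, fun c' _ => by rw [Subsingleton.elim c' c]⟩
    · obtain ⟨x, hx⟩ := Finset.nonempty_iff_ne_empty.mpr hP
      refine ⟨Finset.univ, ?_, ?_⟩
      · have : P = {x} := by
          ext y
          rw [Finset.mem_singleton]
          constructor
          · intro _; exact Subsingleton.elim y x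
          · rintro rfl; exact hx
        rw [this]
        simp
      · intro K _ θ hθ μ hμ hvan
        exfalso
        apply hμ
        have h := hvan x hx
        funext c
        rw [Fintype.sum_subsingleton _ c] at h
        simpa using h
  | succ m ih =>
    intro P
    choose! D hDcard hDgood using ih
    let Pt : ZMod p → Finset (Fin m → ZMod p) := fun t =>
      (P.filter (fun x => x 0 = t)).image Fin.tail
    have hPt : ∀ t, (Pt t).card = (P.filter (fun x => x 0 = t)).card := by
      intro t
      refine Finset.card_image_of_injOn ?_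
      intro x hx y hy hxy
      simp only [Finset.coe_filter, Set.mem_ofPred_eq] at hx hy
      rw [← Fin.cons_self_tail x, ← Fin.cons_self_tail y, hxy, hx.2, hy.2]
    let N : (Fin m → Fin p) → ℕ := fun c' =>
      (Finset.univ.filter (fun t : ZMod p => c' ∈ D (Pt t))).card
    have hN : ∀ c', N c' ≤ p := by
      intro c'
      refine (Finset.card_filter_le _ _).trans ?_
      rw [Finset.card_univ, ZMod.card]
    let DD : Finset (Fin (m + 1) → Fin p) :=
      Finset.univ.filter (fun c => (c 0).val < N (Fin.tail c))
    refine ⟨DD, ?_, ?_⟩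
    · calc DD.card = ∑ c : Fin (m + 1) → Fin p, if (c 0).val < N (Fin.tail c) then 1 else 0 := by
            rw [Finset.card_filter]
        _ = ∑ c' : Fin m → Fin p, ∑ j : Fin p, if j.val < N c' then 1 else 0 := by
            rw [sum_cons]
            simp only [Fin.cons_zero, Fin.tail_cons]
        _ = ∑ c' : Fin m → Fin p, N c' := by
            refine Finset.sum_congr rfl (fun c' _ => ?_)
            rw [← Finset.card_filter, card_lt p _ (hN c')]
        _ = ∑ c' : Fin m → Fin p, ∑ t : ZMod p, if c' ∈ D (Pt t) then 1 else 0 := by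
            refine Finset.sum_congr rfl (fun c' _ => ?_)
            rw [← Finset.card_filter]
        _ = ∑ t : ZMod p, (D (Pt t)).card := by
            rw [Finset.sum_comm]
            refine Finset.sum_congr rfl (fun t _ => ?_)
            rw [← Finset.card_filter]
            simp
        _ = ∑ t : ZMod p, (P.filter (fun x => x 0 = t)).card :=
            Finset.sum_congr rfl (fun t _ => by rw [hDcard, hPt])
        _ = P.card := by
            rw [← Finset.card_eq_sum_card_fiberwise (fun _ _ => Finset.mem_univ _)]
    · intro K _ θ hθ μ hμ hvan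
      have hsupp : (Finset.univ.filter (fun c => μ c ≠ 0)).Nonempty := by
        by_contra h
        rw [Finset.not_nonempty_iff_eq_empty, Finset.filter_eq_empty_iff] at h
        apply hμ
        funext c
        have := h (Finset.mem_univ c)
        push Not at this
        exact this
      obtain ⟨cs, hcs, hmax⟩ := Finset.exists_max_image _ (rk p (m + 1)) hsupp
      have hcs0 : μ cs ≠ 0 := (Finset.mem_filter.mp hcs).2
      have hmax' : ∀ c, μ c ≠ 0 → rk p (m + 1) c ≤ rk p (m + 1) cs := fun c hc =>
        hmax c (Finset.mem_filter.mpr ⟨Finset.mem_univ c, hc⟩)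
      refine ⟨cs, ?_, hcs0, hmax'⟩
      intro hmem
      have hlt : (cs 0).val < N (Fin.tail cs) := (Finset.mem_filter.mp hmem).2
      set c1 := Fin.tail cs with hc1
      set j1 := cs 0 with hj1
      have hcs1 : cs = Fin.cons j1 c1 := (Fin.cons_self_tail cs).symm
      have hrk : rk p (m + 1) cs = rk p m c1 * p + j1.val := by rw [hcs1, rk_cons]
      -- coefficients on a slice
      have hslice : ∀ t : ZMod p, c1 ∈ D (Pt t) →
          ∑ j : Fin p, μ (Fin.cons j c1) * θ 0 t ^ j.val = 0 := by
        intro t ht
        by_contra hne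
        let μt : (Fin m → Fin p) → K := fun c' => ∑ j : Fin p, μ (Fin.cons j c') * θ 0 t ^ j.val
        have hμt : μt ≠ 0 := fun h => hne (congrFun h c1)
        obtain ⟨c', hc'D, hc'0, hc'max⟩ := hDgood (Pt t) K (fun i => θ i.succ)
          (fun i => hθ i.succ) μt hμt (by
            intro x' hx'
            obtain ⟨x, hx, rfl⟩ := Finset.mem_image.mp hx'
            obtain ⟨hxP, hxt⟩ := Finset.mem_filter.mp hx
            have h := hvan x hxP
            rw [sum_cons] at h
            rw [← h]
            refine Finset.sum_congr rfl (fun c' _ => ?_)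
            rw [Finset.sum_mul]
            refine Finset.sum_congr rfl (fun j _ => ?_)
            rw [Fin.prod_univ_succ]
            simp only [Fin.cons_zero, Fin.cons_succ, hxt, Fin.tail]
            ring)
        have hle : rk p m c1 ≤ rk p m c' := hc'max c1 hne
        have hex : ∃ j : Fin p, μ (Fin.cons j c') ≠ 0 := by
          by_contra h
          push Not at h
          apply hc'0
          show ∑ j : Fin p, μ (Fin.cons j c') * θ 0 t ^ j.val = 0
          exact Finset.sum_eq_zero (fun j _ => by rw [h j, zero_mul])
        obtain ⟨j, hj⟩ := hex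
        have h1 := hmax' _ hj
        rw [rk_cons, hrk] at h1
        have hp0 : 0 < p := (Fact.out : p.Prime).pos
        have h2 : rk p m c' ≤ rk p m c1 := by
          by_contra hcon
          rw [not_le] at hcon
          have h3 : (rk p m c1 + 1) * p ≤ rk p m c' * p := Nat.mul_le_mul_right p hcon
          have h4 := j1.isLt
          nlinarith
        have h5 : c' = c1 := rk_injective p m (le_antisymm h2 hle)
        rw [h5] at hc'D
        exact hc'D ht
      -- a polynomial with too many roots
      let g : Polynomial K := ∑ j : Fin p, Polynomial.C (μ (Fin.cons j c1)) * Polynomial.X ^ j.val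
      have hdeg : g.natDegree ≤ j1.val := by
        refine Polynomial.natDegree_sum_le_of_forall_le _ _ (fun j _ => ?_)
        by_cases hj : μ (Fin.cons j c1) = 0
        · rw [hj]
          simp
        · have h1 := hmax' _ hj
          rw [rk_cons, hrk] at h1
          have h2 : j.val ≤ j1.val := by omega
          exact (Polynomial.natDegree_C_mul_X_pow_le _ _).trans h2
      have hcoeff : g.coeff j1.val = μ cs := by
        simp only [g, Polynomial.finsetSum_coeff, Polynomial.coeff_C_mul, Polynomial.coeff_X_pow]
        rw [Finset.sum_eq_single j1]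
        · simp [← hcs1]
        · intro j _ hj
          rw [if_neg (fun h => hj (Fin.ext h.symm)), mul_zero]
        · intro h; exact absurd (Finset.mem_univ _) h
      have hg0 : g = 0 := by
        refine Polynomial.eq_zero_of_natDegree_lt_card_of_eval_eq_zero' g
          ((Finset.univ.filter (fun t : ZMod p => c1 ∈ D (Pt t))).image (θ 0)) ?_ ?_
        · intro y hy
          obtain ⟨t, ht, rfl⟩ := Finset.mem_image.mp hy
          have := hslice t (Finset.mem_filter.mp ht).2
          simp only [g, Polynomial.eval_finsetSum, Polynomial.eval_mul, Polynomial.eval_C,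
            Polynomial.eval_pow, Polynomial.eval_X]
          exact this
        · rw [Finset.card_image_of_injective _ (hθ 0)]
          exact lt_of_le_of_lt hdeg hlt
      rw [hg0, Polynomial.coeff_zero] at hcoeff
      exact hcs0 hcoeff.symm

/-- Consequence: independence. -/
theorem lexgame_indep (p : ℕ) [Fact p.Prime] (m : ℕ) (P : Finset (Fin m → ZMod p)) :
    ∃ D : Finset (Fin m → Fin p), D.card = P.card ∧
      ∀ (K : Type u) [Field K] (θ : Fin m → ZMod p → K), (∀ i, Function.Injective (θ i)) →
        ∀ μ : (Fin m → Fin p) → K, (∀ c, c ∉ D → μ c = 0) →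
          (∀ x ∈ P, ∑ c, μ c * ∏ i, θ i (x i) ^ (c i).val = 0) → μ = 0 := by
  obtain ⟨D, hcard, hD⟩ := lexgame p m P
  refine ⟨D, hcard, fun K _ θ hθ μ hμ hvan => ?_⟩
  by_contra hne
  obtain ⟨c, hc, hc0, -⟩ := hD K θ hθ μ hne hvan
  exact hc0 (hμ c hc)

end Pool.Agent.Helper32.Des
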