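import Pool.Agent.Helper32.DesB
import Pool.Agent.Helper32.DesC

namespace Pool.Agent.Helper32.Des

section
variable {F : Type*} [Field F] [Fintype F] [DecidableEq F] (p : ℕ) [Fact p.Prime]
  [Algebra (ZMod p) F]

/-- Coordinates of a field element with respect to the trace form. -/
noncomputable def tau (a : F) : Fin (Module.finrank (ZMod p) F) → ZMod p :=
  fun i => Algebra.trace (ZMod p) F (a * Module.finBasis (ZMod p) F i)

/-- The field element with given coordinates. -/
noncomputable def gam (c : Fin (Module.finrank (ZMod p) F) → Fin p) : F :=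
  ∑ i, ((c i).val : ZMod p) • Module.finBasis (ZMod p) F i

omit [DecidableEq F] in
lemma tau_neg (a : F) (i) : tau p (-a) i = - tau p a i := by
  unfold tau
  rw [neg_mul, map_neg]

omit [DecidableEq F] in
lemma tau_injective (hnd : ∀ a : F, a ≠ 0 → ∃ b : F, Algebra.trace (ZMod p) F (a * b) ≠ 0) :
    Function.Injective (tau p : F → _) := by
  intro a a' h
  by_contra hne
  obtain ⟨b, hb⟩ := hnd (a - a') (sub_ne_zero.mpr hne)
  apply hb
  have h1 : ∀ i, Algebra.trace (ZMod p) F ((a - a') * Module.finBasis (ZMod p) F i) = 0 := by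
    intro i
    have := congrFun h i
    unfold tau at this
    rw [sub_mul, map_sub, this, sub_self]
  rw [← (Module.finBasis (ZMod p) F).sum_repr b, Finset.mul_sum, map_sum]
  refine Finset.sum_eq_zero (fun i _ => ?_)
  rw [mul_smul_comm, map_smul, h1 i, smul_zero]

omit [DecidableEq F] in
lemma gam_bijective : Function.Bijective (gam p : _ → F) := by
  rw [Fintype.bijective_iff_injective_and_card]
  constructor
  · intro c c' h
    have h1 : ∀ i, ((c i).val : ZMod p) = ((c' i).val : ZMod p) := by
      intro i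
      have h2 := congrArg (fun z => (Module.finBasis (ZMod p) F).repr z i) h
      unfold gam at h2
      simp only [Module.Basis.repr_sum_self] at h2
      exact h2
    funext i
    have h2 := congrArg ZMod.val (h1 i)
    rw [ZMod.val_natCast_of_lt (c i).isLt, ZMod.val_natCast_of_lt (c' i).isLt] at h2
    exact Fin.ext h2
  · rw [Module.card_fintype (Module.finBasis (ZMod p) F)]
    simp [ZMod.card]

lemma chi_sum {A K ι : Type*} [AddCommMonoid A] [CommMonoid K] (χ : AddChar A K) (s : Finset ι)
    (g : ι → A) : χ (∑ i ∈ s, g i) = ∏ i ∈ s, χ (g i) := by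
  classical
  induction s using Finset.induction_on with
  | empty => simp
  | insert a s ha ih => rw [Finset.sum_insert ha, Finset.prod_insert ha, AddChar.map_add_eq_mul, ih]

omit [DecidableEq F] in
lemma chi_mul_gam {K : Type*} [Field K] (χ : AddChar (ZMod p) K) (a : F)
    (c : Fin (Module.finrank (ZMod p) F) → Fin p) :
    χ (Algebra.trace (ZMod p) F (a * gam p c)) = ∏ i, χ (tau p a i) ^ (c i).val := by
  unfold gam
  rw [Finset.mul_sum, map_sum, chi_sum]
  refine Finset.prod_congr rfl (fun i _ => ?_)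
  rw [mul_smul_comm, map_smul, ← AddChar.map_nsmul_eq_pow]
  congr 1
  rw [smul_eq_mul, nsmul_eq_mul]
  rfl

lemma card_nonzeroSquares {n : ℕ} (hcard : Fintype.card F + 1 = 4 * n) :
    (nonzeroSquares F).card = 2 * n - 1 := by
  have h1 := card_block (F := F) (by omega) 0
  have h2 : qrBlock (0 : F) = nonzeroSquares F := by
    unfold qrBlock
    simp
  rw [h2] at h1
  omega

lemma zero_notMem : (0 : F) ∉ nonzeroSquares F := by
  rw [mem_sq, quadraticChar_zero]
  norm_num

end

section
variable {F : Type*} [Field F] [Fintype F] [DecidableEq F] (p : ℕ) [Fact p.Prime]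
  [Algebra (ZMod p) F]
  {K : Type*} [Field K] (χ : AddChar (ZMod p) K)

/-- Partial character sum. -/
noncomputable def gs (a : F) : K :=
  ∑ y ∈ nonzeroSquares F, χ (Algebra.trace (ZMod p) F (a * y))

lemma gs_mul (a s : F) (hs : quadraticChar F s = 1) : gs p χ (a * s) = gs p χ a := by
  have hs0 : s ≠ 0 := by
    rintro rfl
    rw [quadraticChar_zero] at hs
    exact absurd hs (by norm_num)
  unfold gs
  refine Finset.sum_nbij' (fun y => s * y) (fun y => s⁻¹ * y) ?_ ?_ ?_ ?_ ?_
  · intro y hy
    rw [mem_sq] at hy ⊢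
    rw [map_mul, hs, hy, one_mul]
  · intro y hy
    rw [mem_sq] at hy ⊢
    have h1 : quadraticChar F (s⁻¹ * y) * quadraticChar F s = 1 := by
      rw [← map_mul, mul_comm s⁻¹ y, mul_assoc, inv_mul_cancel₀ hs0, mul_one, hy]
    rw [hs, mul_one] at h1
    exact h1
  · intro y _
    show s⁻¹ * (s * y) = y
    rw [← mul_assoc, inv_mul_cancel₀ hs0, one_mul]
  · intro y _
    show s * (s⁻¹ * y) = y
    rw [← mul_assoc, mul_inv_cancel₀ hs0, one_mul]
  · intro y _
    rw [mul_assoc]

lemma gs_zero : gs p χ (0 : F) = ((nonzeroSquares F).card : K) := by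
  unfold gs
  simp

lemma gs_add (h3 : Fintype.card F % 4 = 3)
    (hχ : χ.IsPrimitive)
    (hnd : ∀ a : F, a ≠ 0 → ∃ b : F, Algebra.trace (ZMod p) F (a * b) ≠ 0) :
    gs p χ (1 : F) + gs p χ (-1 : F) = -1 := by
  let ψ : AddChar F K := χ.compAddMonoidHom (Algebra.trace (ZMod p) F).toAddMonoidHom
  have hψ : ψ ≠ 1 := by
    obtain ⟨a, ha⟩ := hnd 1 one_ne_zero
    rw [one_mul] at ha
    exact AddChar.ne_one_iff.2 ⟨a, fun hf => ha <| (hχ.zmod_char_eq_one_iff p _).mp hf⟩
  have hsum := AddChar.sum_eq_zero_of_ne_one hψ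
  have h1 : ∑ y : F, ψ y = ψ 0 + ∑ y ∈ (Finset.univ.erase (0 : F)), ψ y :=
    (Finset.add_sum_erase _ _ (Finset.mem_univ _)).symm
  have h2 : (Finset.univ.erase (0 : F)) =
      nonzeroSquares F ∪ (nonzeroSquares F).image (fun y => -y) := by
    ext y
    simp only [Finset.mem_erase, Finset.mem_univ, and_true, Finset.mem_union, Finset.mem_image]
    constructor
    · intro hy
      rcases quadraticChar_dichotomy hy with h | h
      · left; rwa [mem_sq]
      · right
        refine ⟨-y, ?_, neg_neg y⟩
        rw [mem_sq, qc_neg h3, h, neg_neg]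
    · rintro (h | ⟨z, hz, rfl⟩)
      · rintro rfl
        exact zero_notMem h
      · intro h
        rw [neg_eq_zero] at h
        rw [h] at hz
        exact zero_notMem hz
  have h4 : Disjoint (nonzeroSquares F) ((nonzeroSquares F).image (fun y => -y)) := by
    rw [Finset.disjoint_left]
    intro y hy hy2
    obtain ⟨z, hz, rfl⟩ := Finset.mem_image.mp hy2
    rw [mem_sq] at hy hz
    rw [qc_neg h3, hz] at hy
    exact absurd hy (by norm_num)
  rw [h1, h2, Finset.sum_union h4, Finset.sum_image (fun a _ b _ h => neg_injective h),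
    AddChar.map_zero_eq_one] at hsum
  have e1 : gs p χ (1 : F) = ∑ y ∈ nonzeroSquares F, ψ y := by
    unfold gs
    exact Finset.sum_congr rfl (fun y _ => by rw [one_mul]; rfl)
  have e2 : gs p χ (-1 : F) = ∑ y ∈ nonzeroSquares F, ψ (-y) := by
    unfold gs
    exact Finset.sum_congr rfl (fun y _ => by rw [neg_one_mul]; rfl)
  rw [e1, e2]
  linear_combination hsum

lemma fourier (mc : F → K) (hvan : ∀ x, ∑ c, mc c * ((idc (qrBlock c) x : ℤ) : K) = 0) (a : F) :
    (∑ c, mc c * χ (Algebra.trace (ZMod p) F (a * c))) * gs p χ a = 0 := by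
  have h1 : ∑ x, (∑ c, mc c * ((idc (qrBlock c) x : ℤ) : K)) *
      χ (Algebra.trace (ZMod p) F (a * x)) = 0 :=
    Finset.sum_eq_zero (fun x _ => by rw [hvan x, zero_mul])
  rw [← h1]
  simp_rw [Finset.sum_mul]
  rw [Finset.sum_comm]
  refine Finset.sum_congr rfl (fun c _ => ?_)
  have h2 : ∑ x, mc c * ((idc (qrBlock c) x : ℤ) : K) * χ (Algebra.trace (ZMod p) F (a * x)) =
      mc c * ∑ x ∈ qrBlock c, χ (Algebra.trace (ZMod p) F (a * x)) := by
    rw [Finset.mul_sum, ← Finset.sum_filter_add_sum_filter_not Finset.univ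
      (fun x => x ∈ qrBlock c)]
    have h3 : ∑ x ∈ Finset.univ.filter (fun x => ¬ x ∈ qrBlock c),
        mc c * ((idc (qrBlock c) x : ℤ) : K) * χ (Algebra.trace (ZMod p) F (a * x)) = 0 := by
      refine Finset.sum_eq_zero (fun x hx => ?_)
      rw [idc, if_neg (Finset.mem_filter.mp hx).2]
      simp
    rw [h3, add_zero]
    have h4 : Finset.univ.filter (fun x => x ∈ qrBlock c) = qrBlock c := by
      ext x; simp
    rw [h4]
    refine Finset.sum_congr rfl (fun x hx => ?_)
    rw [idc, if_pos hx]
    simp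
  rw [h2, mul_assoc]
  congr 1
  unfold gs qrBlock
  rw [Finset.sum_image (fun x _ y _ h => add_right_cancel h), Finset.mul_sum]
  refine Finset.sum_congr rfl (fun y _ => ?_)
  rw [mul_add, map_add, AddChar.map_add_eq_mul]
  ring

end

section
variable {F : Type*} [Field F] [Fintype F] [DecidableEq F] (p : ℕ) [hp : Fact p.Prime]
  [Algebra (ZMod p) F]

/-- The property of the exponent set used below. -/
def Good (D : Finset (Fin (Module.finrank (ZMod p) F) → Fin p)) : Prop :=
  ∀ (K : Type) [Field K] (θ : Fin (Module.finrank (ZMod p) F) → ZMod p → K),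
    (∀ i, Function.Injective (θ i)) →
      ∀ μ : (Fin (Module.finrank (ZMod p) F) → Fin p) → K, (∀ c, c ∉ D → μ c = 0) →
        (∀ x ∈ (insert (0 : F) (nonzeroSquares F)).image (tau p),
          ∑ c, μ c * ∏ i, θ i (x i) ^ (c i).val = 0) → μ = 0

lemma indep_aux {n : ℕ} (hcard : Fintype.card F + 1 = 4 * n) (hn : 2 ≤ n)
    (hnd : ∀ a : F, a ≠ 0 → ∃ b : F, Algebra.trace (ZMod p) F (a * b) ≠ 0)
    (D : Finset (Fin (Module.finrank (ZMod p) F) → Fin p)) (hD : Good (F := F) p D)
    (l : ℕ) (hln : l ∣ n) (K : Type) [Field K] [CharP K l] (χ : AddChar (ZMod p) K)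
    (hχ : χ.IsPrimitive) (mc : F → ℤ) (hsupp : ∀ c, c ∉ D.image (gam p) → mc c = 0)
    (hvan : ∀ x, (l : ℤ) ∣ ∑ c, mc c * idc (qrBlock c) x) (c : F) : (l : ℤ) ∣ mc c := by
  classical
  have h3 : Fintype.card F % 4 = 3 := by omega
  have hinj : Function.Injective (χ : ZMod p → K) := by
    intro a b hab
    have h1 : χ (a - b) = 1 := by
      rw [AddChar.map_sub_eq_div, hab, div_self]
      intro h0
      have h2 : χ (b + -b) = 1 := by rw [add_neg_cancel, AddChar.map_zero_eq_one]
      rw [AddChar.map_add_eq_mul, h0, zero_mul] at h2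
      exact zero_ne_one h2
    exact sub_eq_zero.mp ((hχ.zmod_char_eq_one_iff p _).mp h1)
  have hvanK : ∀ x, ∑ c, (mc c : K) * ((idc (qrBlock c) x : ℤ) : K) = 0 := by
    intro x
    have := (CharP.intCast_eq_zero_iff K l _).mpr (hvan x)
    push_cast at this
    exact this
  have hfour := fun a => fourier p χ (fun c => (mc c : K)) hvanK a
  have hconv : ∀ a, ∑ c : Fin (Module.finrank (ZMod p) F) → Fin p,
      (mc (gam p c) : K) * ∏ i, χ (tau p a i) ^ (c i).val =
      ∑ c, (mc c : K) * χ (Algebra.trace (ZMod p) F (a * c)) := by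
    intro a
    rw [← (gam_bijective p).sum_comp
      (fun c => (mc c : K) * χ (Algebra.trace (ZMod p) F (a * c)))]
    refine Finset.sum_congr rfl (fun c _ => ?_)
    rw [chi_mul_gam]
  have hg0 : gs p χ (0 : F) ≠ 0 := by
    rw [gs_zero, card_nonzeroSquares hcard]
    have h1 : ((2 * n - 1 : ℕ) : K) = -1 := by
      rw [Nat.cast_sub (by omega)]
      have : (n : K) = 0 := by
        rw [CharP.cast_eq_zero_iff K l]
        exact hln
      push_cast
      rw [this]
      ring
    rw [h1]
    exact neg_ne_zero.mpr one_ne_zero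
  have hμ : (fun c : Fin (Module.finrank (ZMod p) F) → Fin p => (mc (gam p c) : K)) = 0 := by
    by_cases hg1 : gs p χ (1 : F) = 0
    · have hgm : gs p χ (-1 : F) ≠ 0 := by
        intro h
        have := gs_add p χ h3 hχ hnd
        rw [hg1, h, add_zero] at this
        exact absurd this.symm (neg_ne_zero.mpr one_ne_zero)
      refine hD K (fun _ t => χ (-t)) (fun _ a b h => neg_injective (hinj h)) _ ?_ ?_
      · intro c hc
        rw [hsupp (gam p c)]
        · simp
        · intro hmem
          obtain ⟨c', hc', heq⟩ := Finset.mem_image.mp hmem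
          exact hc ((gam_bijective p).1 heq ▸ hc')
      · intro x hx
        obtain ⟨a, ha, rfl⟩ := Finset.mem_image.mp hx
        have h1 := hfour (-a)
        have h2 : gs p χ (-a) ≠ 0 := by
          rcases Finset.mem_insert.mp ha with rfl | ha
          · rw [neg_zero]; exact hg0
          · rw [show -a = (-1) * a by ring, gs_mul p χ (-1) a ((mem_sq a).mp ha)]
            exact hgm
        rw [← hconv] at h1
        have h4 := (mul_eq_zero.mp h1).resolve_right h2
        simp only [tau_neg] at h4
        exact h4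
    · refine hD K (fun _ t => χ t) (fun _ => hinj) _ ?_ ?_
      · intro c hc
        rw [hsupp (gam p c)]
        · simp
        · intro hmem
          obtain ⟨c', hc', heq⟩ := Finset.mem_image.mp hmem
          exact hc ((gam_bijective p).1 heq ▸ hc')
      · intro x hx
        obtain ⟨a, ha, rfl⟩ := Finset.mem_image.mp hx
        have h1 := hfour a
        have h2 : gs p χ a ≠ 0 := by
          rcases Finset.mem_insert.mp ha with rfl | ha
          · exact hg0
          · rw [show a = 1 * a by ring, gs_mul p χ 1 a ((mem_sq a).mp ha)]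
            exact hg1
        rw [← hconv] at h1
        exact (mul_eq_zero.mp h1).resolve_right h2
  obtain ⟨c', rfl⟩ := (gam_bijective p (F := F)).2 c
  exact (CharP.intCast_eq_zero_iff K l _).mp (congrFun hμ c')

lemma indep {n : ℕ} (hcard : Fintype.card F + 1 = 4 * n) (hn : 2 ≤ n)
    (hnd : ∀ a : F, a ≠ 0 → ∃ b : F, Algebra.trace (ZMod p) F (a * b) ≠ 0)
    (D : Finset (Fin (Module.finrank (ZMod p) F) → Fin p)) (hD : Good (F := F) p D)
    (l : ℕ) (hl : l.Prime) (hln : l ∣ n) (mc : F → ℤ) (hsupp : ∀ c, c ∉ D.image (gam p) → mc c = 0)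
    (hvan : ∀ x, (l : ℤ) ∣ ∑ c, mc c * idc (qrBlock c) x) (c : F) : (l : ℤ) ∣ mc c := by
  have hlf : Fact l.Prime := ⟨hl⟩
  have hpl : ((p : ℕ) : ZMod l) ≠ 0 := by
    rw [Ne, ZMod.natCast_eq_zero_iff]
    intro hdvd
    have hlp : l = p := (Nat.prime_dvd_prime_iff_eq hl hp.out).mp hdvd
    have hq : p ∣ Fintype.card F := by
      rw [Module.card_fintype (Module.finBasis (ZMod p) F), ZMod.card]
      apply dvd_pow_self
      simp only [Fintype.card_fin]
      intro h0
      rw [Module.card_fintype (Module.finBasis (ZMod p) F), Fintype.card_fin, h0, pow_zero]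
        at hcard
      omega
    have h4 : p ∣ 4 * n := Dvd.dvd.mul_left (hlp ▸ hln) 4
    rw [← hcard] at h4
    have h5 : p ∣ 1 := (Nat.dvd_add_right hq).mp h4
    exact hp.out.one_lt.ne' (Nat.dvd_one.mp h5)
  have hNZ : NeZero ((p : ℕ) : ZMod l) := ⟨hpl⟩
  have hζ := IsCyclotomicExtension.zeta_spec p (ZMod l) (CyclotomicField p (ZMod l))
  have hcharK : CharP (CyclotomicField p (ZMod l)) l :=
    charP_of_injective_algebraMap (algebraMap (ZMod l) (CyclotomicField p (ZMod l))).injective l
  exact indep_aux p hcard hn hnd D hD l hln (CyclotomicField p (ZMod l))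
    (AddChar.zmodChar p ((IsPrimitiveRoot.iff_def _ p).mp hζ).left)
    (AddChar.zmodChar_primitive_of_primitive_root p hζ) mc hsupp hvan c

/-- Divisibility of the coefficients by every divisor of `n`. -/
lemma divis {n : ℕ} (hcard : Fintype.card F + 1 = 4 * n) (hn : 2 ≤ n)
    (hnd : ∀ a : F, a ≠ 0 → ∃ b : F, Algebra.trace (ZMod p) F (a * b) ≠ 0)
    (D : Finset (Fin (Module.finrank (ZMod p) F) → Fin p)) (hD : Good (F := F) p D)
    (X : Finset F) : ∀ N : ℕ, N ∣ n → ∀ mc : F → ℤ, (∀ c, c ∉ D.image (gam p) → mc c = 0) →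
    (∀ x, ∑ c, mc c * idc (qrBlock c) x = N * idc X x) → ∀ c, (N : ℤ) ∣ mc c := by
  intro N
  induction N using Nat.strong_induction_on with
  | _ N ih =>
    intro hN mc hsupp hrel c
    have hN0 : N ≠ 0 := by
      rintro rfl
      have := Nat.eq_zero_of_zero_dvd hN
      omega
    by_cases hN1 : N = 1
    · rw [hN1]; simp
    obtain ⟨l, hl, hlN⟩ := Nat.exists_prime_and_dvd hN1
    obtain ⟨N', rfl⟩ := hlN
    have hl0 : (l : ℤ) ≠ 0 := by exact_mod_cast hl.ne_zero
    have hdiv : ∀ c, (l : ℤ) ∣ mc c := fun c =>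
      indep p hcard hn hnd D hD l hl ((Dvd.intro _ rfl).trans hN) mc hsupp (fun x => by
        rw [hrel x]
        push_cast
        exact ⟨N' * idc X x, by ring⟩) c
    choose mc' hmc' using hdiv
    have h1 := ih N' (by
      have h2 := hl.two_le
      have h3 : 0 < N' := Nat.pos_of_ne_zero (fun h => hN0 (by rw [h, mul_zero]))
      nlinarith) ((Dvd.intro_left _ rfl).trans hN) mc' (fun c hc => by
        have := hsupp c hc
        rw [hmc' c] at this
        exact (mul_eq_zero.mp this).resolve_left hl0) (fun x => by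
        have h2 := hrel x
        have h3 : ∑ c, mc c * idc (qrBlock c) x = l * ∑ c, mc' c * idc (qrBlock c) x := by
          rw [Finset.mul_sum]
          refine Finset.sum_congr rfl (fun c _ => ?_)
          rw [hmc' c]
          ring
        rw [h3] at h2
        push_cast at h2
        rw [mul_assoc] at h2
        exact mul_left_cancel₀ hl0 h2) c
    obtain ⟨z, hz⟩ := h1
    refine ⟨z, ?_⟩
    rw [hmc' c, hz]
    push_cast
    ring

end

end Pool.Agent.Helper32.Des
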