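import Mathlib

namespace Pool.Agent.Helper32.Des

/-- The collection (multiset) `𝓑` of subsets of `V` is the block collection of a `t-(v,k,l)` design
on the point set `V` (with `v = |V|`): every block has `k` points and every `t`-subset of `V` lies
in exactly `l` blocks. -/
def IsDesign {V : Type*} [DecidableEq V] (t k l : ℕ) (𝓑 : Multiset (Finset V)) : Prop :=
  (∀ B ∈ 𝓑, B.card = k) ∧ ∀ T : Finset V, T.card = t → 𝓑.countP (fun B => T ⊆ B) = l

/-- `S` is a defining set of the design with block collection `𝓑`: it is a subcollection of `𝓑`,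
and `𝓑` is the only block collection of a `t-(v,k,l)` design on `V` that contains `S`. -/
def IsDefiningSet {V : Type*} [DecidableEq V] (t k l : ℕ) (𝓑 S : Multiset (Finset V)) : Prop :=
  IsDesign t k l 𝓑 ∧ S ≤ 𝓑 ∧
    ∀ 𝓑' : Multiset (Finset V), IsDesign t k l 𝓑' → S ≤ 𝓑' → 𝓑' = 𝓑

/-- The set `Q` of nonzero squares of a finite field. -/
def nonzeroSquares (F : Type*) [Field F] [Fintype F] [DecidableEq F] : Finset F :=
  (Finset.univ.erase (0 : F)).image (fun y => y * y)

/-- The block `Q + a`. -/
def qrBlock {F : Type*} [Field F] [Fintype F] [DecidableEq F] (a : F) : Finset F :=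
  (nonzeroSquares F).image (fun x => x + a)

/-- The block collection `Q + a`, `a ∈ F`, of the quadratic-residue Hadamard design. -/
def qrDesign (F : Type*) [Field F] [Fintype F] [DecidableEq F] : Multiset (Finset F) :=
  (Finset.univ : Finset F).val.map qrBlock

end Pool.Agent.Helper32.Des
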