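import Mathlib

open Quaternion MeasureTheory

namespace Pool.Agent.Helper32.Sym

/-- The group of unit quaternions. -/
abbrev S := Metric.sphere (0 : ℍ[ℝ]) 1

lemma S_norm (x : S) : ‖(x : ℍ[ℝ])‖ = 1 := by
  simp

lemma S_star_mul (x : S) : star (x : ℍ[ℝ]) * (x : ℍ[ℝ]) = 1 := by
  rw [Quaternion.star_mul_self, Quaternion.normSq_eq_norm_mul_self, S_norm]
  simp

lemma S_mul_star (x : S) : (x : ℍ[ℝ]) * star (x : ℍ[ℝ]) = 1 := by
  rw [Quaternion.self_mul_star, Quaternion.normSq_eq_norm_mul_self, S_norm]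
  simp

lemma S_coe_inv (x : S) : ((x⁻¹ : S) : ℍ[ℝ]) = star (x : ℍ[ℝ]) := by
  have h : ((x⁻¹ : S) : ℍ[ℝ]) = (x : ℍ[ℝ])⁻¹ := rfl
  rw [h]
  exact inv_eq_of_mul_eq_one_right (S_mul_star x)

/-- The basis quaternions `1, i, j, k`. -/
def eH : Fin 4 → ℍ[ℝ] := ![⟨1, 0, 0, 0⟩, ⟨0, 1, 0, 0⟩, ⟨0, 0, 1, 0⟩, ⟨0, 0, 0, 1⟩]

lemma eH_norm (t : Fin 4) : ‖eH t‖ = 1 := by
  have h : ‖eH t‖ * ‖eH t‖ = 1 := by
    rw [← Quaternion.normSq_eq_norm_mul_self, Quaternion.normSq_def']
    fin_cases t <;> simp [eH]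
  nlinarith [norm_nonneg (eH t)]

/-- The basis quaternions as unit quaternions. -/
def eS (t : Fin 4) : S := ⟨eH t, by simp [eH_norm]⟩

lemma eS_coe (t : Fin 4) : (eS t : ℍ[ℝ]) = eH t := rfl

lemma K1 (a b : ℍ[ℝ]) : ∑ t : Fin 4, (eH t * a).re * (b * star (eH t)).re = (a * b).re := by
  simp [Fin.sum_univ_four, eH, Quaternion.re_mul]
  ring

lemma K2 (c d : ℍ[ℝ]) :
    ∑ t : Fin 4, (eH t * c * star (eH t) * d).re = 4 * (c.re * d.re) := by
  simp [Fin.sum_univ_four, eH, Quaternion.re_mul]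
  ring

lemma re_cyc (a b : ℍ[ℝ]) : (a * b).re = (b * a).re := by
  simp [Quaternion.re_mul]
  ring

lemma re_sq (a : ℍ[ℝ]) (h : ‖a‖ = 1) : (a * a).re = 2 * a.re ^ 2 - 1 := by
  have h2 : a.re ^ 2 + a.imI ^ 2 + a.imJ ^ 2 + a.imK ^ 2 = 1 := by
    rw [← Quaternion.normSq_def', Quaternion.normSq_eq_norm_mul_self, h]
    norm_num
  simp [Quaternion.re_mul]
  nlinarith

lemma abs_re_le (a : ℍ[ℝ]) : |a.re| ≤ ‖a‖ := by
  have h : a.re ^ 2 ≤ ‖a‖ ^ 2 := by
    rw [sq ‖a‖, ← Quaternion.normSq_eq_norm_mul_self, Quaternion.normSq_def']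
    nlinarith [sq_nonneg a.imI, sq_nonneg a.imJ, sq_nonneg a.imK]
  exact abs_le_of_sq_le_sq h (norm_nonneg a)

/-! ### The design -/

/-- First bilinear form on `F_2^4`. -/
def b1 (i j : Fin 16) : Bool :=
  xor (xor (i.val.testBit 0 && j.val.testBit 0) (i.val.testBit 1 && j.val.testBit 1))
    (xor (i.val.testBit 2 && j.val.testBit 2) (i.val.testBit 3 && j.val.testBit 3))

/-- Second bilinear form on `F_2^4`. -/
def b2 (i j : Fin 16) : Bool :=
  xor (xor (xor (i.val.testBit 0 && j.val.testBit 1) (i.val.testBit 1 && j.val.testBit 0))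
      (i.val.testBit 1 && j.val.testBit 1))
    (xor (xor (i.val.testBit 2 && j.val.testBit 3) (i.val.testBit 3 && j.val.testBit 2))
      (i.val.testBit 3 && j.val.testBit 3))

/-- The index of the basis quaternion attached to the pair `(i, j)`. -/
def bt (i j : Fin 16) : Fin 4 :=
  match b1 i j, b2 i j with
  | false, false => 0
  | true, false => 1
  | false, true => 2
  | true, true => 3

/-- Sign of the commutator of the basis quaternions. -/
def sgZ (m : Fin 3) (t : Fin 4) : ℤ := if t = 0 ∨ t = m.succ then 1 else -1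

lemma hadamardZ : ∀ m : Fin 3, ∀ i i' : Fin 16,
    ∑ j, sgZ m (bt i j) * sgZ m (bt i' j) = if i = i' then 16 else 0 := by
  decide +kernel

lemma hadamard (m : Fin 3) (i i' : Fin 16) :
    ∑ j, (sgZ m (bt i j) : ℝ) * (sgZ m (bt i' j) : ℝ) = if i = i' then 16 else 0 := by
  have h := hadamardZ m i i'
  have h2 : ((∑ j, sgZ m (bt i j) * sgZ m (bt i' j) : ℤ) : ℝ) =
      ((if i = i' then 16 else 0 : ℤ) : ℝ) := by rw [h]
  push_cast at h2
  exact h2

lemma bilin_le (H : Fin 16 → Fin 16 → ℝ)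
    (hH : ∀ i i', ∑ j, H i j * H i' j = if i = i' then 16 else 0) (s t : Fin 16 → ℝ) :
    ∑ i, ∑ j, H i j * (s i * t j) ≤ 2 * (∑ i, s i ^ 2 + ∑ j, t j ^ 2) := by
  have h0 : 0 ≤ ∑ j, (∑ i, H i j * s i - 4 * t j) ^ 2 :=
    Finset.sum_nonneg (fun j _ => sq_nonneg _)
  have h1 : ∑ j, (∑ i, H i j * s i) ^ 2 = 16 * ∑ i, s i ^ 2 := by
    calc ∑ j, (∑ i, H i j * s i) ^ 2
        = ∑ j, ∑ i, ∑ i', (s i * s i') * (H i j * H i' j) := by
          refine Finset.sum_congr rfl (fun j _ => ?_)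
          rw [sq, Finset.sum_mul_sum]
          refine Finset.sum_congr rfl (fun i _ => Finset.sum_congr rfl (fun i' _ => ?_))
          ring
      _ = ∑ i, ∑ i', (s i * s i') * ∑ j, (H i j * H i' j) := by
          rw [Finset.sum_comm]
          refine Finset.sum_congr rfl (fun i _ => ?_)
          rw [Finset.sum_comm]
          refine Finset.sum_congr rfl (fun i' _ => ?_)
          rw [Finset.mul_sum]
      _ = 16 * ∑ i, s i ^ 2 := by
          simp_rw [hH]
          simp only [mul_ite, mul_zero, Finset.sum_ite_eq, Finset.mem_univ, if_true]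
          rw [Finset.mul_sum]
          refine Finset.sum_congr rfl (fun i _ => ?_)
          ring
  have h2 : ∑ j, (∑ i, H i j * s i - 4 * t j) ^ 2 =
      ∑ j, (∑ i, H i j * s i) ^ 2 - 8 * ∑ i, ∑ j, H i j * (s i * t j) + 16 * ∑ j, t j ^ 2 := by
    have h3 : ∑ i, ∑ j, H i j * (s i * t j) = ∑ j, (∑ i, H i j * s i) * t j := by
      rw [Finset.sum_comm]
      refine Finset.sum_congr rfl (fun j _ => ?_)
      rw [Finset.sum_mul]
      refine Finset.sum_congr rfl (fun i _ => ?_)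
      ring
    rw [h3, Finset.mul_sum, Finset.mul_sum, ← Finset.sum_sub_distrib, ← Finset.sum_add_distrib]
    refine Finset.sum_congr rfl (fun j _ => ?_)
    ring
  rw [h2, h1] at h0
  linarith

/-- Imaginary coordinates. -/
def imc (a : ℍ[ℝ]) : Fin 3 → ℝ := ![a.imI, a.imJ, a.imK]

lemma sg_table : ∀ (m : Fin 3) (t : Fin 4), (sgZ m t : ℝ) =
    (![![1, 1, -1, -1], ![1, -1, 1, -1], ![1, -1, -1, 1]] : Fin 3 → Fin 4 → ℝ) m t := by
  intro m t
  fin_cases m <;> fin_cases t <;> simp [sgZ, Fin.ext_iff]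

@[simp] lemma eH0_re : (eH 0).re = 1 := rfl
@[simp] lemma eH0_imI : (eH 0).imI = 0 := rfl
@[simp] lemma eH0_imJ : (eH 0).imJ = 0 := rfl
@[simp] lemma eH0_imK : (eH 0).imK = 0 := rfl
@[simp] lemma eH1_re : (eH 1).re = 0 := rfl
@[simp] lemma eH1_imI : (eH 1).imI = 1 := rfl
@[simp] lemma eH1_imJ : (eH 1).imJ = 0 := rfl
@[simp] lemma eH1_imK : (eH 1).imK = 0 := rfl
@[simp] lemma eH2_re : (eH 2).re = 0 := rfl
@[simp] lemma eH2_imI : (eH 2).imI = 0 := rfl
@[simp] lemma eH2_imJ : (eH 2).imJ = 1 := rfl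
@[simp] lemma eH2_imK : (eH 2).imK = 0 := rfl
@[simp] lemma eH3_re : (eH 3).re = 0 := rfl
@[simp] lemma eH3_imI : (eH 3).imI = 0 := rfl
@[simp] lemma eH3_imJ : (eH 3).imJ = 0 := rfl
@[simp] lemma eH3_imK : (eH 3).imK = 1 := rfl

lemma four_sq_aux (w : ℍ[ℝ]) (t : Fin 4) :
    4 * (eH t * w).re ^ 2 = Quaternion.normSq w +
      ∑ m : Fin 3, (sgZ m t : ℝ) * (-(w * eH m.succ * star w * eH m.succ).re) := by
  have f0 : eH (Fin.succ (0 : Fin 3)) = eH 1 := rfl
  have f1 : eH (Fin.succ (1 : Fin 3)) = eH 2 := rfl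
  have f2 : eH (Fin.succ (2 : Fin 3)) = eH 3 := rfl
  simp only [Fin.sum_univ_three, Quaternion.normSq_def', sg_table, f0, f1, f2]
  fin_cases t <;>
  · simp [Quaternion.re_mul, Quaternion.imI_mul, Quaternion.imJ_mul, Quaternion.imK_mul]
    ring

lemma re_conj_zero (g : ℍ[ℝ]) (m : Fin 3) : (g * eH m.succ * star g).re = 0 := by
  rw [re_cyc, ← mul_assoc, Quaternion.star_mul_self]
  have : (eH m.succ).re = 0 := by fin_cases m <;> rfl
  rw [Quaternion.coe_mul_eq_smul]
  simp [this]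

lemma neg_re_mul (a b : ℍ[ℝ]) (ha : a.re = 0) :
    -(a * b).re = ∑ c : Fin 3, imc a c * imc b c := by
  simp [Fin.sum_univ_three, imc, Quaternion.re_mul, ha]
  ring

lemma four_sq (g v : ℍ[ℝ]) (t : Fin 4) :
    4 * (g * eH t * v).re ^ 2 = Quaternion.normSq g * Quaternion.normSq v +
      ∑ m : Fin 3, (sgZ m t : ℝ) *
        ∑ c : Fin 3, imc (g * eH m.succ * star g) c * imc (star v * eH m.succ * v) c := by
  have h1 : (g * eH t * v).re = (eH t * (v * g)).re := by
    rw [re_cyc (eH t) (v * g), mul_assoc v g, re_cyc v]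
  rw [h1, four_sq_aux, map_mul, mul_comm (Quaternion.normSq v)]
  congr 1
  refine Finset.sum_congr rfl (fun m _ => ?_)
  congr 1
  rw [← neg_re_mul _ _ (re_conj_zero g m)]
  congr 1
  rw [star_mul]
  have h2 : v * g * eH m.succ * (star g * star v) * eH m.succ =
      v * ((g * eH m.succ * star g) * (star v * eH m.succ)) := by
    simp only [mul_assoc]
  rw [h2, re_cyc]
  simp only [mul_assoc]

lemma imc_sq_le (a : ℍ[ℝ]) : ∑ c, imc a c ^ 2 ≤ Quaternion.normSq a := by
  simp only [Fin.sum_univ_three, imc, Quaternion.normSq_def']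
  simp
  nlinarith [sq_nonneg a.re]

lemma design_le (g v : Fin 16 → ℍ[ℝ]) (hg : ∀ i, ‖g i‖ = 1) (hv : ∀ j, ‖v j‖ = 1) :
    ∑ i, ∑ j, (2 * (g i * eH (bt i j) * v j).re ^ 2 - 1) ≤ -32 := by
  have hgn : ∀ i, Quaternion.normSq (g i) = 1 := fun i => by
    rw [Quaternion.normSq_eq_norm_mul_self, hg i]; norm_num
  have hvn : ∀ i, Quaternion.normSq (v i) = 1 := fun i => by
    rw [Quaternion.normSq_eq_norm_mul_self, hv i]; norm_num
  have h1 : ∑ i, ∑ j, 4 * (g i * eH (bt i j) * v j).re ^ 2 =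
      256 + ∑ m : Fin 3, ∑ c : Fin 3, ∑ i, ∑ j, (sgZ m (bt i j) : ℝ) *
        (imc (g i * eH m.succ * star (g i)) c * imc (star (v j) * eH m.succ * v j) c) := by
    have : ∀ i j, 4 * (g i * eH (bt i j) * v j).re ^ 2 = 1 +
      ∑ m : Fin 3, ∑ c : Fin 3, (sgZ m (bt i j) : ℝ) *
        (imc (g i * eH m.succ * star (g i)) c * imc (star (v j) * eH m.succ * v j) c) := by
      intro i j
      rw [four_sq, hgn, hvn]
      congr 1
      · norm_num
      · refine Finset.sum_congr rfl (fun m _ => ?_)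
        rw [Finset.mul_sum]
    simp_rw [this]
    simp only [Finset.sum_add_distrib]
    congr 1
    · simp; norm_num
    · calc _ = ∑ i, ∑ m : Fin 3, ∑ c : Fin 3, ∑ j, (sgZ m (bt i j) : ℝ) *
        (imc (g i * eH m.succ * star (g i)) c * imc (star (v j) * eH m.succ * v j) c) := by
            refine Finset.sum_congr rfl (fun i _ => ?_)
            rw [Finset.sum_comm]
            refine Finset.sum_congr rfl (fun m _ => ?_)
            rw [Finset.sum_comm]
        _ = _ := by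
            rw [Finset.sum_comm]
            refine Finset.sum_congr rfl (fun m _ => ?_)
            rw [Finset.sum_comm]
  have h2 : ∀ m : Fin 3, ∑ c : Fin 3, ∑ i, ∑ j, (sgZ m (bt i j) : ℝ) *
        (imc (g i * eH m.succ * star (g i)) c * imc (star (v j) * eH m.succ * v j) c) ≤ 64 := by
    intro m
    have h3 : ∀ c : Fin 3, ∑ i, ∑ j, (sgZ m (bt i j) : ℝ) *
        (imc (g i * eH m.succ * star (g i)) c * imc (star (v j) * eH m.succ * v j) c) ≤
        2 * (∑ i, imc (g i * eH m.succ * star (g i)) c ^ 2 +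
          ∑ j, imc (star (v j) * eH m.succ * v j) c ^ 2) :=
      fun c => bilin_le (fun i j => (sgZ m (bt i j) : ℝ)) (hadamard m) _ _
    have h4 : ∀ i, ∑ c, imc (g i * eH m.succ * star (g i)) c ^ 2 ≤ 1 := by
      intro i
      refine (imc_sq_le _).trans ?_
      rw [Quaternion.normSq_eq_norm_mul_self, norm_mul, norm_mul, norm_star, hg, eH_norm]
      norm_num
    have h5 : ∀ i, ∑ c, imc (star (v i) * eH m.succ * v i) c ^ 2 ≤ 1 := by
      intro i
      refine (imc_sq_le _).trans ?_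
      rw [Quaternion.normSq_eq_norm_mul_self, norm_mul, norm_mul, norm_star, hv, eH_norm]
      norm_num
    calc _ ≤ ∑ c : Fin 3, 2 * (∑ i, imc (g i * eH m.succ * star (g i)) c ^ 2 +
          ∑ j, imc (star (v j) * eH m.succ * v j) c ^ 2) := Finset.sum_le_sum (fun c _ => h3 c)
      _ = 2 * (∑ i, ∑ c, imc (g i * eH m.succ * star (g i)) c ^ 2 +
          ∑ j, ∑ c, imc (star (v j) * eH m.succ * v j) c ^ 2) := by
          rw [← Finset.mul_sum, Finset.sum_add_distrib]
          congr 2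
          · rw [Finset.sum_comm]
          · rw [Finset.sum_comm]
      _ ≤ 2 * (∑ _i : Fin 16, (1 : ℝ) + ∑ _j : Fin 16, (1 : ℝ)) := by
          gcongr with i _ j _
          · exact h4 i
          · exact h5 j
      _ = 64 := by simp; norm_num
  have h6 : ∑ i, ∑ j, 4 * (g i * eH (bt i j) * v j).re ^ 2 ≤ 448 := by
    rw [h1]
    have := Finset.sum_le_sum (fun m (_ : m ∈ (Finset.univ : Finset (Fin 3))) => h2 m)
    simp only [Finset.sum_const, Finset.card_univ, Fintype.card_fin, nsmul_eq_mul] at this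
    push_cast at this
    linarith
  have h7 : ∑ i, ∑ j, (2 * (g i * eH (bt i j) * v j).re ^ 2 - 1) =
      (∑ i, ∑ j, 4 * (g i * eH (bt i j) * v j).re ^ 2) / 2 - 256 := by
    rw [Finset.sum_div]
    simp_rw [Finset.sum_div, Finset.sum_sub_distrib]
    congr 1
    · refine Finset.sum_congr rfl (fun i _ => Finset.sum_congr rfl (fun j _ => ?_))
      ring
    · simp; norm_num
  rw [h7]
  linarith

end Pool.Agent.Helper32.Sym
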