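import Pool.Agent.Helper32.SymA

open Quaternion MeasureTheory

namespace Pool.Agent.Helper32.Sym

/-- The non-abelian part of the group. -/
abbrev G0 := (Fin 16 → S) × (Fin 16 → S) × S

/-- Reflection with centre `C`. -/
def R {Γ : Type} [Group Γ] (C x : Γ) : Γ := C * x⁻¹ * C

/-- The basic functions. -/
noncomputable def E (i j : Fin 16) (x : G0) : ℝ :=
  ((x.1 i : ℍ[ℝ]) * eH (bt i j) * (x.2.1 j : ℍ[ℝ]) * (x.2.2 : ℍ[ℝ])).re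

noncomputable def LX (i : Fin 16) (u : S) : G0 := (Pi.mulSingle i u, 1, 1)
noncomputable def LZ (j : Fin 16) (u : S) : G0 := (1, Pi.mulSingle j u, 1)
noncomputable def LW (u : S) : G0 := (1, 1, u)

lemma continuous_E (i j : Fin 16) : Continuous (E i j) := by
  unfold E
  refine Quaternion.continuous_re.comp ?_
  fun_prop

lemma abs_E_le (i j : Fin 16) (x : G0) : |E i j x| ≤ 1 := by
  unfold E
  refine (abs_re_le _).trans ?_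
  rw [norm_mul, norm_mul, norm_mul, eH_norm, S_norm, S_norm, S_norm]
  norm_num

lemma E_R (i j : Fin 16) (C x : G0) : E i j (R C x) =
    (((C.1 i : ℍ[ℝ]) * star (x.1 i : ℍ[ℝ]) * (C.1 i : ℍ[ℝ])) * eH (bt i j) *
      ((C.2.1 j : ℍ[ℝ]) * star (x.2.1 j : ℍ[ℝ]) * (C.2.1 j : ℍ[ℝ])) *
      ((C.2.2 : ℍ[ℝ]) * star (x.2.2 : ℍ[ℝ]) * (C.2.2 : ℍ[ℝ]))).re := by
  rw [← S_coe_inv, ← S_coe_inv, ← S_coe_inv]
  rfl

lemma continuous_R {Γ : Type} [Group Γ] [TopologicalSpace Γ] [IsTopologicalGroup Γ] (C : Γ) :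
    Continuous (R C) := by
  unfold R
  fun_prop

lemma LX_same (i : Fin 16) (u : S) (x : G0) :
    ((LX i u * x).1 i : ℍ[ℝ]) = (u : ℍ[ℝ]) * (x.1 i : ℍ[ℝ]) := by
  show (((Pi.mulSingle i u : Fin 16 → S) i * x.1 i : S) : ℍ[ℝ]) = _
  rw [Pi.mulSingle_eq_same]
  rfl

lemma LX_ne (i i' : Fin 16) (h : i' ≠ i) (u : S) (x : G0) : (LX i u * x).1 i' = x.1 i' := by
  show ((Pi.mulSingle i u : Fin 16 → S) i' * x.1 i' : S) = _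
  rw [Pi.mulSingle_eq_of_ne h, one_mul]

lemma LX_snd (i : Fin 16) (u : S) (x : G0) : (LX i u * x).2 = x.2 := by
  show (1 : (Fin 16 → S) × S) * x.2 = x.2
  rw [one_mul]

lemma LZ_same (i : Fin 16) (u : S) (x : G0) :
    ((LZ i u * x).2.1 i : ℍ[ℝ]) = (u : ℍ[ℝ]) * (x.2.1 i : ℍ[ℝ]) := by
  show (((Pi.mulSingle i u : Fin 16 → S) i * x.2.1 i : S) : ℍ[ℝ]) = _
  rw [Pi.mulSingle_eq_same]
  rfl

lemma LZ_ne (i i' : Fin 16) (h : i' ≠ i) (u : S) (x : G0) : (LZ i u * x).2.1 i' = x.2.1 i' := by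
  show ((Pi.mulSingle i u : Fin 16 → S) i' * x.2.1 i' : S) = _
  rw [Pi.mulSingle_eq_of_ne h, one_mul]

lemma LZ_fst (i : Fin 16) (u : S) (x : G0) : (LZ i u * x).1 = x.1 := by
  show (1 : (Fin 16 → S)) * x.1 = x.1
  rw [one_mul]

lemma LZ_snd (i : Fin 16) (u : S) (x : G0) : (LZ i u * x).2.2 = x.2.2 := by
  show (1 : S) * x.2.2 = x.2.2
  rw [one_mul]

lemma LW_same (u : S) (x : G0) :
    ((LW u * x).2.2 : ℍ[ℝ]) = (u : ℍ[ℝ]) * (x.2.2 : ℍ[ℝ]) := rfl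

lemma LW_fst (u : S) (x : G0) : (LW u * x).1 = x.1 := by
  show (1 : (Fin 16 → S)) * x.1 = x.1
  rw [one_mul]

lemma LW_mid (u : S) (x : G0) : (LW u * x).2.1 = x.2.1 := by
  show (1 : (Fin 16 → S)) * x.2.1 = x.2.1
  rw [one_mul]

/-- Minus one as a unit quaternion. -/
noncomputable def nS : S := ⟨-1, by simp⟩

lemma nS_coe : (nS : ℍ[ℝ]) = -1 := rfl

section
variable [MeasurableSpace G0] [BorelSpace G0] (ν : Measure G0) [IsProbabilityMeasure ν]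
  [ν.IsMulLeftInvariant]

lemma integrable_of_continuous {F : G0 → ℝ} (hF : Continuous F) : Integrable F ν :=
  hF.integrable_of_hasCompactSupport (HasCompactSupport.of_compactSpace F)

lemma integral_inv (F : G0 → ℝ) (g : G0) : ∫ x, F (g * x) ∂ν = ∫ x, F x ∂ν :=
  integral_mul_left_eq_self F g

/-- Averaging over four translates. -/
lemma average (F F1 : G0 → ℝ) (hF : Continuous F) (L : Fin 4 → G0) (c : ℝ)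
    (h : ∀ x, ∑ t, F (L t * x) = c * F1 x) : 4 * ∫ x, F x ∂ν = c * ∫ x, F1 x ∂ν := by
  have h1 : ∑ t, ∫ x, F (L t * x) ∂ν = 4 * ∫ x, F x ∂ν := by
    simp_rw [integral_inv ν F]
    simp
  rw [← h1, ← integral_finsetSum, ← integral_const_mul]
  · congr 1
    ext x
    exact h x
  · intro t _
    exact integrable_of_continuous ν (hF.comp (continuous_const_mul (L t)))

/-- Integrals of functions that change sign under a translation vanish. -/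
lemma odd_zero (F : G0 → ℝ) (g : G0) (h : ∀ x, F (g * x) = - F x) : ∫ x, F x ∂ν = 0 := by
  have h1 := integral_inv ν F g
  simp_rw [h] at h1
  rw [integral_neg] at h1
  linarith

/-- First averaging step. -/
lemma step1 (i j : Fin 16) (C : G0) :
    4 * ∫ x, E i j x * E i j (R C x) ∂ν = 1 * ∫ x : G0,
      (eH (bt i j) * (x.2.1 j : ℍ[ℝ]) * (x.2.2 : ℍ[ℝ]) * ((C.1 i : ℍ[ℝ]) * eH (bt i j) *
        (C.2.1 j : ℍ[ℝ]) * star (x.2.1 j : ℍ[ℝ]) * (C.2.1 j : ℍ[ℝ]) *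
        (C.2.2 : ℍ[ℝ]) * star (x.2.2 : ℍ[ℝ]) * (C.2.2 : ℍ[ℝ]) * (C.1 i : ℍ[ℝ]))).re ∂ν := by
  refine average ν _ _ ((continuous_E i j).mul ((continuous_E i j).comp (continuous_R C)))
    (fun t => LX i (eS t)) 1 (fun x => ?_)
  have h1 : ∀ t, E i j (LX i (eS t) * x) =
      (eH t * ((x.1 i : ℍ[ℝ]) * eH (bt i j) * (x.2.1 j : ℍ[ℝ]) * (x.2.2 : ℍ[ℝ]))).re := by
    intro t
    unfold E
    rw [LX_same, LX_snd, eS_coe]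
    simp only [mul_assoc]
  have h2 : ∀ t, E i j (R C (LX i (eS t) * x)) =
      (((C.1 i : ℍ[ℝ]) * eH (bt i j) *
        (C.2.1 j : ℍ[ℝ]) * star (x.2.1 j : ℍ[ℝ]) * (C.2.1 j : ℍ[ℝ]) *
        (C.2.2 : ℍ[ℝ]) * star (x.2.2 : ℍ[ℝ]) * (C.2.2 : ℍ[ℝ]) * (C.1 i : ℍ[ℝ]) *
          star (x.1 i : ℍ[ℝ])) * star (eH t)).re := by
    intro t
    rw [E_R, LX_same, LX_snd, eS_coe, star_mul]
    rw [show ((C.1 i : ℍ[ℝ]) * (star (x.1 i : ℍ[ℝ]) * star (eH t)) * (C.1 i : ℍ[ℝ])) * eH (bt i j) *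
      ((C.2.1 j : ℍ[ℝ]) * star (x.2.1 j : ℍ[ℝ]) * (C.2.1 j : ℍ[ℝ])) *
      ((C.2.2 : ℍ[ℝ]) * star (x.2.2 : ℍ[ℝ]) * (C.2.2 : ℍ[ℝ])) =
      ((C.1 i : ℍ[ℝ]) * star (x.1 i : ℍ[ℝ]) * star (eH t)) * ((C.1 i : ℍ[ℝ]) * eH (bt i j) *
        (C.2.1 j : ℍ[ℝ]) * star (x.2.1 j : ℍ[ℝ]) * (C.2.1 j : ℍ[ℝ]) *
        (C.2.2 : ℍ[ℝ]) * star (x.2.2 : ℍ[ℝ]) * (C.2.2 : ℍ[ℝ])) by simp only [mul_assoc]]
    rw [re_cyc]
    simp only [mul_assoc]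
  have h3 : ∀ t ∈ (Finset.univ : Finset (Fin 4)),
      E i j (LX i (eS t) * x) * E i j (R C (LX i (eS t) * x)) = _ * _ :=
    fun t _ => by rw [h1 t, h2 t]
  refine (Finset.sum_congr rfl h3).trans ?_
  rw [K1, one_mul]
  rw [show ((x.1 i : ℍ[ℝ]) * eH (bt i j) * (x.2.1 j : ℍ[ℝ]) * (x.2.2 : ℍ[ℝ])) *
      ((C.1 i : ℍ[ℝ]) * eH (bt i j) *
        (C.2.1 j : ℍ[ℝ]) * star (x.2.1 j : ℍ[ℝ]) * (C.2.1 j : ℍ[ℝ]) *
        (C.2.2 : ℍ[ℝ]) * star (x.2.2 : ℍ[ℝ]) * (C.2.2 : ℍ[ℝ]) * (C.1 i : ℍ[ℝ]) *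
          star (x.1 i : ℍ[ℝ])) =
      (x.1 i : ℍ[ℝ]) * ((eH (bt i j) * (x.2.1 j : ℍ[ℝ]) * (x.2.2 : ℍ[ℝ]) *
      ((C.1 i : ℍ[ℝ]) * eH (bt i j) *
        (C.2.1 j : ℍ[ℝ]) * star (x.2.1 j : ℍ[ℝ]) * (C.2.1 j : ℍ[ℝ]) *
        (C.2.2 : ℍ[ℝ]) * star (x.2.2 : ℍ[ℝ]) * (C.2.2 : ℍ[ℝ]) * (C.1 i : ℍ[ℝ]))) *
          star (x.1 i : ℍ[ℝ])) by simp only [mul_assoc]]
  rw [re_cyc, mul_assoc, S_star_mul, mul_one]

/-- Second averaging step. -/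
lemma step2 (i j : Fin 16) (C : G0) :
    4 * ∫ x : G0,
      (eH (bt i j) * (x.2.1 j : ℍ[ℝ]) * (x.2.2 : ℍ[ℝ]) * ((C.1 i : ℍ[ℝ]) * eH (bt i j) *
        (C.2.1 j : ℍ[ℝ]) * star (x.2.1 j : ℍ[ℝ]) * (C.2.1 j : ℍ[ℝ]) *
        (C.2.2 : ℍ[ℝ]) * star (x.2.2 : ℍ[ℝ]) * (C.2.2 : ℍ[ℝ]) * (C.1 i : ℍ[ℝ]))).re ∂ν =
    4 * ∫ x : G0, ((C.1 i : ℍ[ℝ]) * eH (bt i j) *
        (C.2.1 j : ℍ[ℝ]) * star (x.2.1 j : ℍ[ℝ]) * (C.2.1 j : ℍ[ℝ]) * (C.2.2 : ℍ[ℝ])).re *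
        ((C.2.2 : ℍ[ℝ]) * (C.1 i : ℍ[ℝ]) * eH (bt i j) * (x.2.1 j : ℍ[ℝ])).re ∂ν := by
  refine average ν _ _ ?_ (fun t => LW (eS t)) 4 (fun x => ?_)
  · refine Quaternion.continuous_re.comp ?_
    fun_prop
  have h1 : ∀ t,
      (eH (bt i j) * ((LW (eS t) * x).2.1 j : ℍ[ℝ]) * ((LW (eS t) * x).2.2 : ℍ[ℝ]) *
        ((C.1 i : ℍ[ℝ]) * eH (bt i j) *
        (C.2.1 j : ℍ[ℝ]) * star ((LW (eS t) * x).2.1 j : ℍ[ℝ]) * (C.2.1 j : ℍ[ℝ]) *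
        (C.2.2 : ℍ[ℝ]) * star ((LW (eS t) * x).2.2 : ℍ[ℝ]) * (C.2.2 : ℍ[ℝ]) *
          (C.1 i : ℍ[ℝ]))).re =
      (eH t * ((x.2.2 : ℍ[ℝ]) * ((C.1 i : ℍ[ℝ]) * eH (bt i j) *
        (C.2.1 j : ℍ[ℝ]) * star (x.2.1 j : ℍ[ℝ]) * (C.2.1 j : ℍ[ℝ]) * (C.2.2 : ℍ[ℝ])) *
        star (x.2.2 : ℍ[ℝ])) * star (eH t) *
        ((C.2.2 : ℍ[ℝ]) * (C.1 i : ℍ[ℝ]) * eH (bt i j) * (x.2.1 j : ℍ[ℝ]))).re := by
    intro t
    rw [LW_same, LW_mid, eS_coe, star_mul]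
    rw [show eH (bt i j) * (x.2.1 j : ℍ[ℝ]) * (eH t * (x.2.2 : ℍ[ℝ])) *
        ((C.1 i : ℍ[ℝ]) * eH (bt i j) *
        (C.2.1 j : ℍ[ℝ]) * star (x.2.1 j : ℍ[ℝ]) * (C.2.1 j : ℍ[ℝ]) *
        (C.2.2 : ℍ[ℝ]) * (star (x.2.2 : ℍ[ℝ]) * star (eH t)) * (C.2.2 : ℍ[ℝ]) *
          (C.1 i : ℍ[ℝ])) =
        (eH (bt i j) * (x.2.1 j : ℍ[ℝ])) * ((eH t * (x.2.2 : ℍ[ℝ])) *
        ((C.1 i : ℍ[ℝ]) * eH (bt i j) *
        (C.2.1 j : ℍ[ℝ]) * star (x.2.1 j : ℍ[ℝ]) * (C.2.1 j : ℍ[ℝ]) *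
        (C.2.2 : ℍ[ℝ]) * (star (x.2.2 : ℍ[ℝ]) * star (eH t)) * (C.2.2 : ℍ[ℝ]) *
          (C.1 i : ℍ[ℝ]))) by simp only [mul_assoc]]
    rw [re_cyc]
    simp only [mul_assoc]
  simp_rw [h1]
  rw [K2]
  congr 2
  rw [mul_assoc, re_cyc, mul_assoc, S_star_mul, mul_one]

/-- Third averaging step. -/
lemma step3 (i j : Fin 16) (C : G0) :
    4 * ∫ x : G0, ((C.1 i : ℍ[ℝ]) * eH (bt i j) *
        (C.2.1 j : ℍ[ℝ]) * star (x.2.1 j : ℍ[ℝ]) * (C.2.1 j : ℍ[ℝ]) * (C.2.2 : ℍ[ℝ])).re *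
        ((C.2.2 : ℍ[ℝ]) * (C.1 i : ℍ[ℝ]) * eH (bt i j) * (x.2.1 j : ℍ[ℝ])).re ∂ν =
    1 * ∫ _x : G0, (2 * ((C.1 i : ℍ[ℝ]) * eH (bt i j) *
      ((C.2.1 j : ℍ[ℝ]) * (C.2.2 : ℍ[ℝ]))).re ^ 2 - 1) ∂ν := by
  refine average ν _ _ ?_ (fun t => LZ j (eS t)) 1 (fun x => ?_)
  · refine (Quaternion.continuous_re.comp ?_).mul (Quaternion.continuous_re.comp ?_)
    · fun_prop
    · fun_prop
  have h1 : ∀ t, ((C.1 i : ℍ[ℝ]) * eH (bt i j) *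
        (C.2.1 j : ℍ[ℝ]) * star ((LZ j (eS t) * x).2.1 j : ℍ[ℝ]) * (C.2.1 j : ℍ[ℝ]) *
          (C.2.2 : ℍ[ℝ])).re = (((C.2.1 j : ℍ[ℝ]) * (C.2.2 : ℍ[ℝ]) * (C.1 i : ℍ[ℝ]) *
          eH (bt i j) * (C.2.1 j : ℍ[ℝ]) * star (x.2.1 j : ℍ[ℝ])) * star (eH t)).re := by
    intro t
    rw [LZ_same, eS_coe, star_mul]
    rw [show (C.1 i : ℍ[ℝ]) * eH (bt i j) *
        (C.2.1 j : ℍ[ℝ]) * (star (x.2.1 j : ℍ[ℝ]) * star (eH t)) * (C.2.1 j : ℍ[ℝ]) *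
          (C.2.2 : ℍ[ℝ]) = ((C.1 i : ℍ[ℝ]) * eH (bt i j) *
        (C.2.1 j : ℍ[ℝ]) * (star (x.2.1 j : ℍ[ℝ]) * star (eH t))) * ((C.2.1 j : ℍ[ℝ]) *
          (C.2.2 : ℍ[ℝ])) by simp only [mul_assoc]]
    rw [re_cyc]
    simp only [mul_assoc]
  have h2 : ∀ t, ((C.2.2 : ℍ[ℝ]) * (C.1 i : ℍ[ℝ]) * eH (bt i j) *
        ((LZ j (eS t) * x).2.1 j : ℍ[ℝ])).re =
      (eH t * ((x.2.1 j : ℍ[ℝ]) * (C.2.2 : ℍ[ℝ]) * (C.1 i : ℍ[ℝ]) * eH (bt i j))).re := by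
    intro t
    rw [LZ_same, eS_coe, re_cyc]
    simp only [mul_assoc]
  simp_rw [h1, h2]
  rw [Finset.sum_congr rfl (fun t _ => mul_comm _ _), K1, one_mul]
  have h3 : ((x.2.1 j : ℍ[ℝ]) * (C.2.2 : ℍ[ℝ]) * (C.1 i : ℍ[ℝ]) * eH (bt i j)) *
      ((C.2.1 j : ℍ[ℝ]) * (C.2.2 : ℍ[ℝ]) * (C.1 i : ℍ[ℝ]) *
          eH (bt i j) * (C.2.1 j : ℍ[ℝ]) * star (x.2.1 j : ℍ[ℝ])) =
      (x.2.1 j : ℍ[ℝ]) * ((((C.2.2 : ℍ[ℝ]) * (C.1 i : ℍ[ℝ]) * eH (bt i j) * (C.2.1 j : ℍ[ℝ])) *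
      ((C.2.2 : ℍ[ℝ]) * (C.1 i : ℍ[ℝ]) * eH (bt i j) * (C.2.1 j : ℍ[ℝ]))) *
        star (x.2.1 j : ℍ[ℝ])) := by simp only [mul_assoc]
  rw [h3, re_cyc, mul_assoc, S_star_mul, mul_one, re_sq]
  · have h4 : ((C.2.2 : ℍ[ℝ]) * (C.1 i : ℍ[ℝ]) * eH (bt i j) * (C.2.1 j : ℍ[ℝ])).re =
        ((C.1 i : ℍ[ℝ]) * eH (bt i j) * ((C.2.1 j : ℍ[ℝ]) * (C.2.2 : ℍ[ℝ]))).re := by
      rw [mul_assoc, mul_assoc, re_cyc]
      simp only [mul_assoc]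
    rw [h4]
  · rw [norm_mul, norm_mul, norm_mul, eH_norm, S_norm, S_norm, S_norm]
    norm_num

lemma diag_integral (i j : Fin 16) (C : G0) :
    ∫ x, E i j x * E i j (R C x) ∂ν = (2 * ((C.1 i : ℍ[ℝ]) * eH (bt i j) *
      ((C.2.1 j : ℍ[ℝ]) * (C.2.2 : ℍ[ℝ]))).re ^ 2 - 1) / 16 := by
  have h1 := step1 ν i j C
  have h2 := step2 ν i j C
  have h3 := step3 ν i j C
  rw [integral_const, probReal_univ, one_smul] at h3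
  linarith

lemma cross_integral (i j i' j' : Fin 16) (h : (i, j) ≠ (i', j')) (C : G0) :
    ∫ x, E i j x * E i' j' (R C x) ∂ν = 0 := by
  by_cases hi : i = i'
  · have hj : j' ≠ j := by
      rintro rfl
      exact h (by rw [hi])
    refine odd_zero ν _ (LZ j nS) (fun x => ?_)
    have h1 : E i j (LZ j nS * x) = - E i j x := by
      unfold E
      rw [LZ_same, LZ_fst, LZ_snd, nS_coe]
      rw [show (x.1 i : ℍ[ℝ]) * eH (bt i j) * (-1 * (x.2.1 j : ℍ[ℝ])) * (x.2.2 : ℍ[ℝ]) =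
        -((x.1 i : ℍ[ℝ]) * eH (bt i j) * (x.2.1 j : ℍ[ℝ]) * (x.2.2 : ℍ[ℝ])) by
          simp only [neg_mul, one_mul, mul_neg]]
      rfl
    have h2 : E i' j' (R C (LZ j nS * x)) = E i' j' (R C x) := by
      rw [E_R, E_R, LZ_ne j j' hj, LZ_fst, LZ_snd]
    rw [h1, h2, neg_mul]
  · have hi' : i' ≠ i := fun hh => hi hh.symm
    refine odd_zero ν _ (LX i nS) (fun x => ?_)
    have h1 : E i j (LX i nS * x) = - E i j x := by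
      unfold E
      rw [LX_same, LX_snd, nS_coe]
      rw [show (-1 * (x.1 i : ℍ[ℝ])) * eH (bt i j) * (x.2.1 j : ℍ[ℝ]) * (x.2.2 : ℍ[ℝ]) =
        -((x.1 i : ℍ[ℝ]) * eH (bt i j) * (x.2.1 j : ℍ[ℝ]) * (x.2.2 : ℍ[ℝ])) by
          simp only [neg_mul, one_mul]]
      rfl
    have h2 : E i' j' (R C (LX i nS * x)) = E i' j' (R C x) := by
      rw [E_R, E_R, LX_ne i i' hi', LX_snd]
    rw [h1, h2, neg_mul]

lemma E_LW (i j : Fin 16) (x : G0) : E i j (LW nS * x) = - E i j x := by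
  unfold E
  rw [LW_same, LW_fst, LW_mid, nS_coe]
  rw [show (x.1 i : ℍ[ℝ]) * eH (bt i j) * (x.2.1 j : ℍ[ℝ]) * (-1 * (x.2.2 : ℍ[ℝ])) =
    -((x.1 i : ℍ[ℝ]) * eH (bt i j) * (x.2.1 j : ℍ[ℝ]) * (x.2.2 : ℍ[ℝ])) by
      simp only [neg_mul, one_mul, mul_neg]]
  rfl

lemma E_R_LW (i j : Fin 16) (C x : G0) : E i j (R C (LW nS * x)) = - E i j (R C x) := by
  rw [E_R, E_R, LW_same, LW_fst, LW_mid, nS_coe, star_mul, star_neg, star_one]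
  rw [show (C.1 i : ℍ[ℝ]) * star (x.1 i : ℍ[ℝ]) * (C.1 i : ℍ[ℝ]) * eH (bt i j) *
      ((C.2.1 j : ℍ[ℝ]) * star (x.2.1 j : ℍ[ℝ]) * (C.2.1 j : ℍ[ℝ])) *
      ((C.2.2 : ℍ[ℝ]) * (star (x.2.2 : ℍ[ℝ]) * -1) * (C.2.2 : ℍ[ℝ])) =
      -((C.1 i : ℍ[ℝ]) * star (x.1 i : ℍ[ℝ]) * (C.1 i : ℍ[ℝ]) * eH (bt i j) *
      ((C.2.1 j : ℍ[ℝ]) * star (x.2.1 j : ℍ[ℝ]) * (C.2.1 j : ℍ[ℝ])) *
      ((C.2.2 : ℍ[ℝ]) * (star (x.2.2 : ℍ[ℝ])) * (C.2.2 : ℍ[ℝ]))) by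
      simp only [neg_mul, mul_one, mul_neg]]
  rfl

/-- The fractional colouring. -/
noncomputable def f (x : G0) : ℝ := (∑ i, ∑ j, E i j x) / 256

omit [MeasurableSpace G0] [BorelSpace G0] in
lemma continuous_f : Continuous f := by
  unfold f
  exact (continuous_finsetSum _ (fun i _ => continuous_finsetSum _
    (fun j _ => continuous_E i j))).div_const _

omit [MeasurableSpace G0] [BorelSpace G0] in
lemma abs_f_le (x : G0) : |f x| ≤ 1 := by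
  unfold f
  rw [abs_div, div_le_one (by norm_num)]
  calc |∑ i, ∑ j, E i j x| ≤ ∑ i, ∑ j, |E i j x| :=
        (Finset.abs_sum_le_sum_abs _ _).trans
          (Finset.sum_le_sum (fun i _ => Finset.abs_sum_le_sum_abs _ _))
    _ ≤ ∑ _i : Fin 16, ∑ _j : Fin 16, (1 : ℝ) :=
        Finset.sum_le_sum (fun i _ => Finset.sum_le_sum (fun j _ => abs_E_le i j x))
    _ = |256| := by simp; norm_num

lemma integral_f : ∫ x, f x ∂ν = 0 := by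
  refine odd_zero ν _ (LW nS) (fun x => ?_)
  unfold f
  simp_rw [E_LW, Finset.sum_neg_distrib]
  rw [neg_div]

lemma integral_f_R (C : G0) : ∫ x, f (R C x) ∂ν = 0 := by
  refine odd_zero ν _ (LW nS) (fun x => ?_)
  unfold f
  simp_rw [E_R_LW, Finset.sum_neg_distrib]
  rw [neg_div]

lemma integral_f_f_R (C : G0) : ∫ x, f x * f (R C x) ∂ν ≤ -1 / 32768 := by
  have hcont : ∀ i j i' j', Continuous (fun x => E i j x * E i' j' (R C x)) := fun i j i' j' =>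
    (continuous_E i j).mul ((continuous_E i' j').comp (continuous_R C))
  have h1 : ∀ x, f x * f (R C x) =
      (∑ p : Fin 16 × Fin 16, ∑ p' : Fin 16 × Fin 16, E p.1 p.2 x * E p'.1 p'.2 (R C x)) /
        65536 := by
    intro x
    unfold f
    rw [← Fintype.sum_prod_type' (fun i j => E i j x),
      ← Fintype.sum_prod_type' (fun i j => E i j (R C x)), div_mul_div_comm,
      Finset.sum_mul_sum]
    norm_num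
  simp_rw [h1]
  rw [integral_div, integral_finsetSum]
  swap
  · intro p _
    exact integrable_finsetSum _ (fun p' _ => integrable_of_continuous ν (hcont _ _ _ _))
  have h2 : ∀ p : Fin 16 × Fin 16,
      ∫ x, ∑ p' : Fin 16 × Fin 16, E p.1 p.2 x * E p'.1 p'.2 (R C x) ∂ν =
      (2 * ((C.1 p.1 : ℍ[ℝ]) * eH (bt p.1 p.2) *
      ((C.2.1 p.2 : ℍ[ℝ]) * (C.2.2 : ℍ[ℝ]))).re ^ 2 - 1) / 16 := by
    intro p
    rw [integral_finsetSum _ (fun p' _ => integrable_of_continuous ν (hcont _ _ _ _))]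
    rw [Finset.sum_eq_single p]
    · exact diag_integral ν p.1 p.2 C
    · intro p' _ hne
      exact cross_integral ν p.1 p.2 p'.1 p'.2 (fun h => hne h.symm) C
    · intro h
      exact absurd (Finset.mem_univ p) h
  simp_rw [h2]
  rw [Fintype.sum_prod_type]
  simp only
  have h3 := design_le (fun i => (C.1 i : ℍ[ℝ]))
    (fun j => (C.2.1 j : ℍ[ℝ]) * (C.2.2 : ℍ[ℝ])) (fun i => S_norm _)
    (fun j => by rw [norm_mul, S_norm, S_norm, one_mul])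
  have h4 : ∑ i : Fin 16, ∑ j : Fin 16, (2 * ((C.1 i : ℍ[ℝ]) * eH (bt i j) *
      ((C.2.1 j : ℍ[ℝ]) * (C.2.2 : ℍ[ℝ]))).re ^ 2 - 1) / 16 =
      (∑ i : Fin 16, ∑ j : Fin 16, (2 * ((C.1 i : ℍ[ℝ]) * eH (bt i j) *
      ((C.2.1 j : ℍ[ℝ]) * (C.2.2 : ℍ[ℝ]))).re ^ 2 - 1)) / 16 := by
    rw [Finset.sum_div]
    refine Finset.sum_congr rfl (fun i _ => ?_)
    rw [Finset.sum_div]
  rw [h4]
  have h5 : (∑ i : Fin 16, ∑ j : Fin 16, (2 * ((C.1 i : ℍ[ℝ]) * eH (bt i j) *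
      ((C.2.1 j : ℍ[ℝ]) * (C.2.2 : ℍ[ℝ]))).re ^ 2 - 1)) ≤ -32 := h3
  have h6 : (∑ i : Fin 16, ∑ j : Fin 16, (2 * ((C.1 i : ℍ[ℝ]) * eH (bt i j) *
      ((C.2.1 j : ℍ[ℝ]) * (C.2.2 : ℍ[ℝ]))).re ^ 2 - 1)) / 16 / 65536 ≤ (-32) / 16 / 65536 := by
    gcongr
  refine h6.trans ?_
  norm_num

end

end Pool.Agent.Helper32.Sym
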