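import Pool.Agent.Helper32.SymB

open Quaternion MeasureTheory

namespace Pool.Agent.Helper32.Sym

section Circle
variable (p : ℕ)

/-- Integer part modulo `p`. -/
noncomputable def fl (x : ℝ) : ZMod p := ((⌊x⌋ : ℤ) : ZMod p)

lemma fl_periodic : Function.Periodic (fl p) (p : ℝ) := by
  intro x
  unfold fl
  rw [show (p : ℝ) = ((p : ℤ) : ℝ) by push_cast; rfl, Int.floor_add_intCast]
  push_cast
  simp

/-- The cell of a point of the circle of length `p`. -/
noncomputable def pr : AddCircle (p : ℝ) → ZMod p := (fl_periodic p).lift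

lemma pr_coe (x : ℝ) : pr p (x : AddCircle (p : ℝ)) = fl p x :=
  Function.Periodic.lift_coe _ _

lemma pr_nat_add (n : ℕ) (z : AddCircle (p : ℝ)) :
    pr p (((n : ℝ) : AddCircle (p : ℝ)) + z) = pr p z + n := by
  induction z using QuotientAddGroup.induction_on with
  | H x =>
    rw [← AddCircle.coe_add]
    rw [pr_coe]
    show fl p ((n : ℝ) + x) = pr p ((x : ℝ) : AddCircle (p : ℝ)) + n
    rw [pr_coe]
    unfold fl
    rw [show ((n : ℝ) + x) = x + ((n : ℤ) : ℝ) by push_cast; ring, Int.floor_add_intCast]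
    push_cast
    rfl

lemma pr_sub_nat (n : ℕ) (z : AddCircle (p : ℝ)) :
    pr p (z - ((n : ℝ) : AddCircle (p : ℝ))) = pr p z - n := by
  have h := pr_nat_add p n (z - ((n : ℝ) : AddCircle (p : ℝ)))
  rw [add_sub_cancel] at h
  rw [h]
  ring

lemma measurableSet_pr (u : ZMod p) : MeasurableSet (pr p ⁻¹' {u}) := by
  rw [measurableSet_quotient]
  have : (Quotient.mk'' ⁻¹' (pr p ⁻¹' {u}) : Set ℝ) = (fun x : ℝ => ⌊x⌋) ⁻¹' {n : ℤ | (n : ZMod p) = u} := by
    ext x
    show pr p (x : AddCircle (p : ℝ)) = u ↔ _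
    rw [pr_coe]
    rfl
  rw [this]
  exact Int.measurable_floor (MeasurableSpace.measurableSet_top)

end Circle

section Count
variable (p : ℕ) [Fact p.Prime]

lemma count_le (hp : p ≠ 2) (a0 a1 a2 c0 c1 c2 : ZMod p) (L L' : Finset (ZMod p)) :
    (Finset.univ.filter (fun γ : ZMod p × ZMod p × ZMod p =>
      (a1 + γ.2.1) + (a0 + γ.1) * (a2 + γ.2.2) ∈ L ∧
      (c1 - γ.2.1) + (c0 - γ.1) * (c2 - γ.2.2) ∈ L')).card ≤
      p * (L.card * L'.card) + p ^ 2 := by
  classical
  have h2 : (2 : ZMod p) ≠ 0 := by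
    have hne : ((2 : ℕ) : ZMod p) ≠ 0 := by
      rw [Ne, ZMod.natCast_eq_zero_iff]
      intro h
      have hprime := (Fact.out : p.Prime)
      have := (Nat.prime_dvd_prime_iff_eq hprime Nat.prime_two).mp h
      exact hp this
    exact_mod_cast hne
  rw [Finset.card_eq_sum_card_fiberwise (f := fun γ : ZMod p × ZMod p × ZMod p => γ.1)
    (t := Finset.univ) (fun _ _ => Finset.mem_univ _)]
  have hbound : ∀ γ0 : ZMod p,
      ((Finset.univ.filter (fun γ : ZMod p × ZMod p × ZMod p =>
      (a1 + γ.2.1) + (a0 + γ.1) * (a2 + γ.2.2) ∈ L ∧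
      (c1 - γ.2.1) + (c0 - γ.1) * (c2 - γ.2.2) ∈ L')).filter (fun γ => γ.1 = γ0)).card ≤
      L.card * L'.card + if γ0 = (c0 - a0) / 2 then p ^ 2 else 0 := by
    intro γ0
    split_ifs with h
    · refine le_trans ?_ (Nat.le_add_left _ _)
      have hinj : Set.InjOn (fun γ : ZMod p × ZMod p × ZMod p => γ.2)
          (((Finset.univ.filter (fun γ : ZMod p × ZMod p × ZMod p =>
      (a1 + γ.2.1) + (a0 + γ.1) * (a2 + γ.2.2) ∈ L ∧
      (c1 - γ.2.1) + (c0 - γ.1) * (c2 - γ.2.2) ∈ L')).filter (fun γ => γ.1 = γ0)) : Set _) := by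
        intro x hx y hy hxy
        simp only [Finset.coe_filter, Finset.mem_filter, Finset.mem_univ, true_and,
          Set.mem_ofPred_eq] at hx hy
        exact Prod.ext (hx.2.trans hy.2.symm) hxy
      have := Finset.card_le_card_of_injOn (t := (Finset.univ : Finset (ZMod p × ZMod p))) _
        (fun _ _ => Finset.mem_coe.mpr (Finset.mem_univ _)) hinj
      refine this.trans ?_
      rw [Finset.card_univ, Fintype.card_prod, ZMod.card, sq]
    · rw [add_zero, ← Finset.card_product]
      have hne : (a0 + γ0) - (c0 - γ0) ≠ 0 := by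
        intro h0
        apply h
        field_simp
        linear_combination h0
      refine Finset.card_le_card_of_injOn (fun γ : ZMod p × ZMod p × ZMod p =>
        ((a1 + γ.2.1) + (a0 + γ.1) * (a2 + γ.2.2),
         (c1 - γ.2.1) + (c0 - γ.1) * (c2 - γ.2.2))) ?_ ?_
      · intro x hx
        simp only [Finset.coe_filter, Finset.mem_filter, Finset.mem_univ, true_and,
          Set.mem_ofPred_eq] at hx
        rw [Finset.mem_coe, Finset.mem_product]
        exact hx.1
      · intro x hx y hy hxy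
        simp only [Finset.coe_filter, Finset.mem_filter, Finset.mem_univ, true_and,
          Set.mem_ofPred_eq] at hx hy
        obtain ⟨x0, x1, x2⟩ := x
        obtain ⟨y0, y1, y2⟩ := y
        simp only [Prod.mk.injEq] at hxy hx hy ⊢
        obtain ⟨-, rfl⟩ := hx
        obtain ⟨-, rfl⟩ := hy
        obtain ⟨e1, e2⟩ := hxy
        have e3 : ((a0 + y0) - (c0 - y0)) * (x2 - y2) = 0 := by linear_combination e1 + e2
        have e4 : x2 = y2 := by
          rcases mul_eq_zero.mp e3 with h | h
          · exact absurd h hne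
          · exact sub_eq_zero.mp h
        subst e4
        refine ⟨rfl, ?_, rfl⟩
        linear_combination e1
  calc _ ≤ ∑ γ0 : ZMod p, (L.card * L'.card + if γ0 = (c0 - a0) / 2 then p ^ 2 else 0) :=
        Finset.sum_le_sum (fun γ0 _ => hbound γ0)
    _ = p * (L.card * L'.card) + p ^ 2 := by
        rw [Finset.sum_add_distrib]
        simp [ZMod.card]

/-- Sign attached to a colour. -/
def sgn (i : Fin 2) : ℝ := if i = 0 then 1 else -1

/-- The levels receiving colour `i` when the value of the fractional colouring is `y`. -/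
noncomputable def Lev (i : Fin 2) (y : ℝ) : Finset (ZMod p) :=
  Finset.univ.filter (fun u => (if (u.val : ℝ) < p * (1 + y) / 2 then (0 : Fin 2) else 1) = i)

lemma card_Lev (i : Fin 2) (y : ℝ) (hy : |y| ≤ 1) :
    ((Lev p i y).card : ℝ) ≤ p * ((1 + sgn i * y) / 2) + 1 := by
  have hy1 := (abs_le.mp hy).1
  have hy2 := (abs_le.mp hy).2
  have hp0 : (0 : ℝ) < p := by exact_mod_cast (Fact.out : p.Prime).pos
  set s : ℝ := p * (1 + y) / 2 with hs
  have hs0 : 0 ≤ s := by rw [hs]; have : 0 ≤ 1 + y := by linarith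
                         positivity
  have hsp : s ≤ p := by rw [hs]; nlinarith
  rcases (by fin_cases i <;> simp : i = 0 ∨ i = 1) with rfl | rfl
  · have h1 : (Lev p 0 y).card ≤ ⌈s⌉₊ := by
      have := Finset.card_le_card_of_injOn (s := Lev p 0 y) (t := Finset.range ⌈s⌉₊)
        (fun u => u.val) (by
          intro u hu
          simp only [Lev, Finset.coe_filter, Finset.mem_univ, true_and, Set.mem_ofPred_eq] at hu
          rw [Finset.mem_coe, Finset.mem_range, Nat.lt_ceil]
          by_contra h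
          rw [if_neg h] at hu
          exact absurd hu (by decide)) (fun x _ y _ h => ZMod.val_injective p h)
      simpa using this
    have h2 : (⌈s⌉₊ : ℝ) < s + 1 := Nat.ceil_lt_add_one hs0
    have h3 : ((Lev p 0 y).card : ℝ) ≤ ⌈s⌉₊ := by exact_mod_cast h1
    simp only [sgn, if_true]
    rw [hs] at h2 h3
    linarith
  · have h1 : (Lev p 1 y).card ≤ p - ⌈s⌉₊ := by
      have := Finset.card_le_card_of_injOn (s := Lev p 1 y) (t := Finset.Ico ⌈s⌉₊ p)
        (fun u => u.val) (by
          intro u hu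
          simp only [Lev, Finset.coe_filter, Finset.mem_univ, true_and, Set.mem_ofPred_eq] at hu
          rw [Finset.mem_coe, Finset.mem_Ico, Nat.ceil_le]
          refine ⟨?_, ZMod.val_lt u⟩
          by_contra h
          rw [not_le] at h
          rw [if_pos h] at hu
          exact absurd hu (by decide)) (fun x _ y _ h => ZMod.val_injective p h)
      simpa using this
    have h2 : ⌈s⌉₊ ≤ p := Nat.ceil_le.mpr hsp
    have h3 : ((Lev p 1 y).card : ℝ) ≤ p - ⌈s⌉₊ := by
      have : ((Lev p 1 y).card : ℝ) ≤ ((p - ⌈s⌉₊ : ℕ) : ℝ) := by exact_mod_cast h1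
      rwa [Nat.cast_sub h2] at this
    have h4 : s ≤ ⌈s⌉₊ := Nat.le_ceil s
    simp only [sgn, one_ne_zero, if_false]
    rw [hs] at h4 h3
    linarith

end Count

end Pool.Agent.Helper32.Sym
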