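import Pool.Agent.Helper32.SymC

open Quaternion MeasureTheory

namespace Pool.Agent.Helper32.Sym

/-- The circle of length `p`, written multiplicatively. -/
abbrev K (p : ℕ) := Multiplicative (AddCircle (p : ℝ))

/-- The group. -/
abbrev GG (p : ℕ) := G0 × (K p × K p × K p)

section
variable (p : ℕ)

noncomputable def c0 (P : GG p) : ZMod p := pr p (Multiplicative.toAdd P.2.1)
noncomputable def c1 (P : GG p) : ZMod p := pr p (Multiplicative.toAdd P.2.2.1)
noncomputable def c2 (P : GG p) : ZMod p := pr p (Multiplicative.toAdd P.2.2.2)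

/-- The level of a point. -/
noncomputable def U (P : GG p) : ZMod p := c1 p P + c0 p P * c2 p P

/-- The colouring. -/
noncomputable def chi (P : GG p) : Fin 2 :=
  if ((U p P).val : ℝ) < p * (1 + f P.1) / 2 then 0 else 1

/-- Shift by an integer vector. -/
noncomputable def Sh (γ : ZMod p × ZMod p × ZMod p) : GG p :=
  (1, Multiplicative.ofAdd ((γ.1.val : ℝ) : AddCircle (p : ℝ)),
    Multiplicative.ofAdd ((γ.2.1.val : ℝ) : AddCircle (p : ℝ)),
    Multiplicative.ofAdd ((γ.2.2.val : ℝ) : AddCircle (p : ℝ)))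

lemma Sh_fst (γ : ZMod p × ZMod p × ZMod p) (P : GG p) : (Sh p γ * P).1 = P.1 := by
  show (1 : G0) * P.1 = P.1
  rw [one_mul]

lemma R_Sh_fst (γ : ZMod p × ZMod p × ZMod p) (C P : GG p) :
    (R C (Sh p γ * P)).1 = R C.1 P.1 := by
  show C.1 * ((1 : G0) * P.1)⁻¹ * C.1 = _
  rw [one_mul]
  rfl

variable [Fact p.Prime]

lemma c0_Sh (γ : ZMod p × ZMod p × ZMod p) (P : GG p) : c0 p (Sh p γ * P) = c0 p P + γ.1 := by
  show pr p (((γ.1.val : ℝ) : AddCircle (p : ℝ)) + Multiplicative.toAdd P.2.1) = _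
  rw [pr_nat_add, ZMod.natCast_zmod_val]
  rfl

lemma c1_Sh (γ : ZMod p × ZMod p × ZMod p) (P : GG p) : c1 p (Sh p γ * P) = c1 p P + γ.2.1 := by
  show pr p (((γ.2.1.val : ℝ) : AddCircle (p : ℝ)) + Multiplicative.toAdd P.2.2.1) = _
  rw [pr_nat_add, ZMod.natCast_zmod_val]
  rfl

lemma c2_Sh (γ : ZMod p × ZMod p × ZMod p) (P : GG p) : c2 p (Sh p γ * P) = c2 p P + γ.2.2 := by
  show pr p (((γ.2.2.val : ℝ) : AddCircle (p : ℝ)) + Multiplicative.toAdd P.2.2.2) = _
  rw [pr_nat_add, ZMod.natCast_zmod_val]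
  rfl

lemma c0_R_Sh (γ : ZMod p × ZMod p × ZMod p) (C P : GG p) :
    c0 p (R C (Sh p γ * P)) = c0 p (R C P) - γ.1 := by
  have h : Multiplicative.toAdd (R C (Sh p γ * P)).2.1 =
      Multiplicative.toAdd (R C P).2.1 - ((γ.1.val : ℝ) : AddCircle (p : ℝ)) := by
    show Multiplicative.toAdd C.2.1 +
      -(((γ.1.val : ℝ) : AddCircle (p : ℝ)) + Multiplicative.toAdd P.2.1) +
      Multiplicative.toAdd C.2.1 = Multiplicative.toAdd C.2.1 + -Multiplicative.toAdd P.2.1 +
      Multiplicative.toAdd C.2.1 - _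
    abel
  unfold c0
  rw [h, pr_sub_nat, ZMod.natCast_zmod_val]

lemma c1_R_Sh (γ : ZMod p × ZMod p × ZMod p) (C P : GG p) :
    c1 p (R C (Sh p γ * P)) = c1 p (R C P) - γ.2.1 := by
  have h : Multiplicative.toAdd (R C (Sh p γ * P)).2.2.1 =
      Multiplicative.toAdd (R C P).2.2.1 - ((γ.2.1.val : ℝ) : AddCircle (p : ℝ)) := by
    show Multiplicative.toAdd C.2.2.1 +
      -(((γ.2.1.val : ℝ) : AddCircle (p : ℝ)) + Multiplicative.toAdd P.2.2.1) +
      Multiplicative.toAdd C.2.2.1 = Multiplicative.toAdd C.2.2.1 +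
      -Multiplicative.toAdd P.2.2.1 + Multiplicative.toAdd C.2.2.1 - _
    abel
  unfold c1
  rw [h, pr_sub_nat, ZMod.natCast_zmod_val]

lemma c2_R_Sh (γ : ZMod p × ZMod p × ZMod p) (C P : GG p) :
    c2 p (R C (Sh p γ * P)) = c2 p (R C P) - γ.2.2 := by
  have h : Multiplicative.toAdd (R C (Sh p γ * P)).2.2.2 =
      Multiplicative.toAdd (R C P).2.2.2 - ((γ.2.2.val : ℝ) : AddCircle (p : ℝ)) := by
    show Multiplicative.toAdd C.2.2.2 +
      -(((γ.2.2.val : ℝ) : AddCircle (p : ℝ)) + Multiplicative.toAdd P.2.2.2) +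
      Multiplicative.toAdd C.2.2.2 = Multiplicative.toAdd C.2.2.2 +
      -Multiplicative.toAdd P.2.2.2 + Multiplicative.toAdd C.2.2.2 - _
    abel
  unfold c2
  rw [h, pr_sub_nat, ZMod.natCast_zmod_val]

lemma chi_eq_iff (i : Fin 2) (P : GG p) : chi p P = i ↔ U p P ∈ Lev p i (f P.1) := by
  simp [chi, Lev]

open Classical in
/-- Indicator of the set of points which together with their mirror image have colour `i`. -/
noncomputable def ind (i : Fin 2) (C P : GG p) : ℝ :=
  if chi p P = i ∧ chi p (R C P) = i then 1 else 0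

/-- The bounding function. -/
noncomputable def bd (i : Fin 2) (C x : G0) : ℝ :=
  ((1 + sgn i * f x) / 2 + 1 / p) * ((1 + sgn i * f (R C x)) / 2 + 1 / p) + 1 / p

lemma sum_ind_le (hp : p ≠ 2) (i : Fin 2) (C P : GG p) :
    ∑ γ : ZMod p × ZMod p × ZMod p, ind p i C (Sh p γ * P) ≤ (p : ℝ) ^ 3 * bd p i C.1 P.1 := by
  classical
  have hp0 : (0 : ℝ) < p := by exact_mod_cast (Fact.out : p.Prime).pos
  have h1 : ∀ γ : ZMod p × ZMod p × ZMod p, ind p i C (Sh p γ * P) =
      if ((c1 p P + γ.2.1) + (c0 p P + γ.1) * (c2 p P + γ.2.2) ∈ Lev p i (f P.1) ∧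
      (c1 p (R C P) - γ.2.1) + (c0 p (R C P) - γ.1) * (c2 p (R C P) - γ.2.2) ∈
        Lev p i (f (R C.1 P.1))) then 1 else 0 := by
    intro γ
    have hiff : (chi p (Sh p γ * P) = i ∧ chi p (R C (Sh p γ * P)) = i) ↔
        ((c1 p P + γ.2.1) + (c0 p P + γ.1) * (c2 p P + γ.2.2) ∈ Lev p i (f P.1) ∧
      (c1 p (R C P) - γ.2.1) + (c0 p (R C P) - γ.1) * (c2 p (R C P) - γ.2.2) ∈
        Lev p i (f (R C.1 P.1))) := by
      rw [chi_eq_iff, chi_eq_iff, Sh_fst, R_Sh_fst]
      unfold U
      rw [c0_Sh, c1_Sh, c2_Sh, c0_R_Sh, c1_R_Sh, c2_R_Sh]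
    unfold ind
    exact if_congr hiff rfl rfl
  simp_rw [h1]
  rw [← Finset.sum_filter, Finset.sum_const, nsmul_eq_mul, mul_one]
  have h2 := count_le p hp (c0 p P) (c1 p P) (c2 p P) (c0 p (R C P)) (c1 p (R C P))
    (c2 p (R C P)) (Lev p i (f P.1)) (Lev p i (f (R C.1 P.1)))
  have h3 : (((Finset.univ.filter (fun γ : ZMod p × ZMod p × ZMod p =>
      (c1 p P + γ.2.1) + (c0 p P + γ.1) * (c2 p P + γ.2.2) ∈ Lev p i (f P.1) ∧
      (c1 p (R C P) - γ.2.1) + (c0 p (R C P) - γ.1) * (c2 p (R C P) - γ.2.2) ∈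
        Lev p i (f (R C.1 P.1)))).card : ℕ) : ℝ) ≤
      p * (((Lev p i (f P.1)).card : ℝ) * ((Lev p i (f (R C.1 P.1))).card : ℝ)) + p ^ 2 := by
    exact_mod_cast h2
  refine h3.trans ?_
  have h4 := card_Lev p i (f P.1) (abs_f_le _)
  have h5 := card_Lev p i (f (R C.1 P.1)) (abs_f_le _)
  have h6 : ((Lev p i (f P.1)).card : ℝ) * ((Lev p i (f (R C.1 P.1))).card : ℝ) ≤
      (p * ((1 + sgn i * f P.1) / 2) + 1) * (p * ((1 + sgn i * f (R C.1 P.1)) / 2) + 1) := by
    refine mul_le_mul h4 h5 (Nat.cast_nonneg _) ((Nat.cast_nonneg _).trans h4)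
  calc _ ≤ p * ((p * ((1 + sgn i * f P.1) / 2) + 1) *
        (p * ((1 + sgn i * f (R C.1 P.1)) / 2) + 1)) + (p : ℝ) ^ 2 := by gcongr
    _ = _ := by
      unfold bd
      field_simp

section Meas
variable [MeasurableSpace (GG p)] [BorelSpace (GG p)]

lemma measurable_comp_pr (g : GG p → AddCircle (p : ℝ)) (hg : Continuous g)
    [MeasurableSpace (ZMod p)] : Measurable (fun P => pr p (g P)) := by
  refine measurable_to_countable' (fun u => ?_)
  exact hg.measurable (measurableSet_pr p u)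

lemma measurable_chi : Measurable (chi p) := by
  let _ : MeasurableSpace (ZMod p) := ⊤
  have : DiscreteMeasurableSpace (ZMod p) := ⟨fun _ => MeasurableSpace.measurableSet_top⟩
  have h0 : Measurable (c0 p) := measurable_comp_pr p _
    (continuous_toAdd.comp (continuous_fst.comp continuous_snd))
  have h1 : Measurable (c1 p) := measurable_comp_pr p _
    (continuous_toAdd.comp (continuous_fst.comp (continuous_snd.comp continuous_snd)))
  have h2 : Measurable (c2 p) := measurable_comp_pr p _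
    (continuous_toAdd.comp (continuous_snd.comp (continuous_snd.comp continuous_snd)))
  have h3 : Measurable (fun P : GG p => (c0 p P, c1 p P, c2 p P)) := h0.prodMk (h1.prodMk h2)
  have h4 : Measurable (fun q : ZMod p × ZMod p × ZMod p => ((q.2.1 + q.1 * q.2.2).val : ℝ)) :=
    Measurable.of_discrete
  have h5 : Measurable (fun P : GG p => ((U p P).val : ℝ)) := h4.comp h3
  have h6 : Measurable (fun P : GG p => (p : ℝ) * (1 + f P.1) / 2) := by
    have : Continuous (fun P : GG p => (p : ℝ) * (1 + f P.1) / 2) := by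
      have := continuous_f.comp (continuous_fst (X := G0) (Y := K p × K p × K p))
      fun_prop
    exact this.measurable
  exact Measurable.ite (measurableSet_lt h5 h6) measurable_const measurable_const

lemma measure_bound (hp : p ≠ 2) (μ : Measure (GG p)) [IsProbabilityMeasure μ]
    [μ.IsMulLeftInvariant] (i : Fin 2) (C : GG p) :
    μ.real {P | chi p P = i ∧ chi p (R C P) = i} ≤
      (1 + 2 / p) ^ 2 / 4 - 1 / 131072 + 1 / p := by
  have hp0 : (0 : ℝ) < p := by exact_mod_cast (Fact.out : p.Prime).pos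
  let _ : MeasurableSpace G0 := borel G0
  have : BorelSpace G0 := ⟨rfl⟩
  have hset : MeasurableSet {P | chi p P = i ∧ chi p (R C P) = i} := by
    have h1 := measurable_chi p
    have h2 : Measurable (fun P => chi p (R C P)) := h1.comp (continuous_R C).measurable
    exact (h1 (measurableSet_singleton i)).inter (h2 (measurableSet_singleton i))
  have hind : ind p i C = Set.indicator {P | chi p P = i ∧ chi p (R C P) = i} 1 := by
    classical
    ext P
    unfold ind
    rw [Set.indicator_apply]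
    exact if_congr Iff.rfl rfl rfl
  have hint : Integrable (ind p i C) μ := by
    rw [hind]
    exact (integrable_const (1 : ℝ)).indicator hset
  have hmeas : μ.real {P | chi p P = i ∧ chi p (R C P) = i} = ∫ P, ind p i C P ∂μ := by
    rw [hind, integral_indicator_one hset]
  have hintS : ∀ γ, Integrable (fun P => ind p i C (Sh p γ * P)) μ := fun γ =>
    hint.comp_mul_left (Sh p γ)
  have havg : (p : ℝ) ^ 3 * ∫ P, ind p i C P ∂μ =
      ∫ P, ∑ γ : ZMod p × ZMod p × ZMod p, ind p i C (Sh p γ * P) ∂μ := by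
    rw [integral_finsetSum _ (fun γ _ => hintS γ)]
    simp_rw [integral_mul_left_eq_self (fun P => ind p i C P)]
    rw [Finset.sum_const, Finset.card_univ, Fintype.card_prod, Fintype.card_prod, ZMod.card,
      nsmul_eq_mul]
    push_cast
    ring
  have hcont_bd : Continuous (fun x : G0 => bd p i C.1 x) := by
    unfold bd
    have h1 := continuous_f
    have h2 := continuous_f.comp (continuous_R C.1)
    simp only [Function.comp_def] at h2
    fun_prop
  have hle : ∫ P, ∑ γ : ZMod p × ZMod p × ZMod p, ind p i C (Sh p γ * P) ∂μ ≤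
      ∫ P, (p : ℝ) ^ 3 * bd p i C.1 P.1 ∂μ := by
    refine integral_mono (integrable_finsetSum _ (fun γ _ => hintS γ)) ?_
      (fun P => sum_ind_le p hp i C P)
    have h1 : Continuous (fun P : GG p => (p : ℝ) ^ 3 * bd p i C.1 P.1) :=
      continuous_const.mul (hcont_bd.comp continuous_fst)
    have : Fact (0 < (p : ℝ)) := ⟨hp0⟩
    exact h1.integrable_of_hasCompactSupport (HasCompactSupport.of_compactSpace _)
  rw [integral_const_mul] at hle
  have hle2 : ∫ P, ind p i C P ∂μ ≤ ∫ P, bd p i C.1 P.1 ∂μ := by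
    rw [← havg] at hle
    exact le_of_mul_le_mul_left hle (by positivity)
  -- push forward to the first factor
  set ν : Measure G0 := μ.map Prod.fst with hν
  have hfst : Measurable (Prod.fst : GG p → G0) := continuous_fst.measurable
  have : IsProbabilityMeasure ν := Measure.isProbabilityMeasure_map hfst.aemeasurable
  have : ν.IsMulLeftInvariant :=
    isMulLeftInvariant_map (MonoidHom.fst G0 (K p × K p × K p)).toMulHom hfst
      (fun x => ⟨(x, 1), rfl⟩)
  have hpush : ∫ P, bd p i C.1 P.1 ∂μ = ∫ x, bd p i C.1 x ∂ν := by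
    rw [hν, integral_map hfst.aemeasurable hcont_bd.aestronglyMeasurable]
  have hsgn : sgn i * sgn i = 1 := by
    unfold sgn
    split_ifs <;> norm_num
  have hexp : ∀ x : G0, bd p i C.1 x = (1 + 2 / p) ^ 2 / 4 + 1 / p +
      (sgn i * (1 + 2 / p) / 4) * f x + (sgn i * (1 + 2 / p) / 4) * f (R C.1 x) +
      (1 / 4) * (f x * f (R C.1 x)) := by
    intro x
    unfold bd
    have : (sgn i * f x) * (sgn i * f (R C.1 x)) = f x * f (R C.1 x) := by
      rw [mul_mul_mul_comm, hsgn, one_mul]
    linear_combination (1 / 4) * this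
  have hI1 : Integrable f ν := integrable_of_continuous ν continuous_f
  have hI2 : Integrable (fun x => f (R C.1 x)) ν :=
    integrable_of_continuous ν (continuous_f.comp (continuous_R C.1))
  have hI3 : Integrable (fun x => f x * f (R C.1 x)) ν :=
    integrable_of_continuous ν (continuous_f.mul (continuous_f.comp (continuous_R C.1)))
  have hval : ∫ x, bd p i C.1 x ∂ν = (1 + 2 / p) ^ 2 / 4 + 1 / p +
      (1 / 4) * ∫ x, f x * f (R C.1 x) ∂ν := by
    simp_rw [hexp]
    rw [integral_add, integral_add, integral_add, integral_const, probReal_univ, one_smul,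
      integral_const_mul, integral_const_mul, integral_const_mul, integral_f, integral_f_R]
    · ring
    · exact integrable_const _
    · exact hI1.const_mul _
    · exact (integrable_const _).add (hI1.const_mul _)
    · exact hI2.const_mul _
    · exact ((integrable_const _).add (hI1.const_mul _)).add (hI2.const_mul _)
    · exact hI3.const_mul _
  have hB := integral_f_f_R ν C.1
  rw [hmeas]
  calc ∫ P, ind p i C P ∂μ ≤ ∫ P, bd p i C.1 P.1 ∂μ := hle2
    _ = (1 + 2 / p) ^ 2 / 4 + 1 / p + (1 / 4) * ∫ x, f x * f (R C.1 x) ∂ν := by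
        rw [hpush, hval]
    _ ≤ _ := by linarith

end Meas

end

end Pool.Agent.Helper32.Sym
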